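import Pool.Agent.MP_5daf37_lc.Defs

/-!
The graph of a circuit after deleting nodes and contracting parts.
-/

namespace Pool.Agent.MP_5daf37_lc

variable {F : Type} {n p q : ℕ}

/-- The edge `e` has both ends outside `S`, and its ends lie in different parts of `π`. -/
def Circuit.Live (C : Circuit F n p q) (π : Fin p → ℕ) (S : Finset (Fin p)) (e : Fin q) : Prop :=
  C.tail e ∉ S ∧ C.head e ∉ S ∧ π (C.tail e) ≠ π (C.head e)

/-- The undirected simple graph on the parts: two parts are adjacent if a live edge joins them. -/
def Circuit.partGraph (C : Circuit F n p q) (π : Fin p → ℕ) (S : Finset (Fin p)) :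
    SimpleGraph ℕ :=
  SimpleGraph.fromRel fun a b => ∃ e, C.Live π S e ∧ π (C.tail e) = a ∧ π (C.head e) = b

end Pool.Agent.MP_5daf37_lc
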