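import Pool.Agent.MP_5daf37_lc.TL.Net
import Pool.Agent.MP_5daf37_lc.TL.Defs
import Pool.Agent.MP_5daf37_lc.BN.Circ

/-!
From circuits to networks.
-/

open Matrix Finset

namespace Pool.Agent.MP_5daf37_lc.TL

open BN

variable {𝕜 : Type} [RCLike 𝕜] {n m p q : ℕ}

theorem mul3_ne {a b c d : Type} [Fintype b] [Fintype c] {X : Matrix a b 𝕜} {Y : Matrix b c 𝕜}
    {Z : Matrix c d 𝕜} {i : a} {j : d} (h : (X * Y * Z) i j ≠ 0) :
    ∃ u v, X i u ≠ 0 ∧ Y u v ≠ 0 ∧ Z v j ≠ 0 := by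
  rw [mul_apply] at h
  obtain ⟨v, -, h⟩ := exists_ne_zero_of_sum_ne_zero h
  have h1 := left_ne_zero_of_mul h
  rw [mul_apply] at h1
  obtain ⟨u, -, h1⟩ := exists_ne_zero_of_sum_ne_zero h1
  exact ⟨u, v, left_ne_zero_of_mul h1, right_ne_zero_of_mul h1, right_ne_zero_of_mul h⟩

theorem Wm_ne (C : Circuit 𝕜 n p q) {w : Fin q → 𝕜} {v u : Fin p} (h : Wm C w v u ≠ 0) :
    ∃ e, C.tail e = u ∧ C.head e = v ∧ w e ≠ 0 := by
  rw [Wm, of_apply] at h
  obtain ⟨e, -, h⟩ := exists_ne_zero_of_sum_ne_zero h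
  have h1 : C.head e = v ∧ C.tail e = u := by_contra fun h1 => h (if_neg h1)
  exact ⟨e, h1.2, h1.1, by rwa [if_pos h1] at h⟩

omit [RCLike 𝕜] in
theorem exists_rank (C : Circuit 𝕜 n p q) :
    ∃ ρ : Fin p → ℕ, ∀ e, ρ (C.tail e) < ρ (C.head e) := by
  classical
  let r : Fin p → Fin p → Prop := Relation.TransGen fun a b => ∃ e, C.tail e = a ∧ C.head e = b
  refine ⟨fun v => (univ.filter fun u => r u v).card, fun e => ?_⟩
  have h1 : r (C.tail e) (C.head e) := Relation.TransGen.single ⟨e, rfl, rfl⟩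
  refine card_lt_card ⟨fun u hu => ?_, fun h => ?_⟩
  · simp only [mem_filter, mem_univ, true_and] at hu ⊢
    exact hu.trans h1
  · exact C.acyclic _ (mem_filter.1 (h (mem_filter.2 ⟨mem_univ _, h1⟩))).2

theorem card_le_ncard {α β : Type} [Fintype α] [Finite β] {s : Finset α} {t : Set β} {f : α → β}
    (hf : Function.Injective f) (h : ∀ a ∈ s, f a ∈ t) : s.card ≤ t.ncard := by
  rw [← Set.ncard_coe_finset]
  exact Set.ncard_le_ncard_of_injOn f h hf.injOn

theorem main (C : Circuit 𝕜 n p q) (A : Matrix (Fin n) (Fin n) 𝕜) (hC : C.Computes A)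
    (r c : Fin m → Fin n) (U : Matrix (Fin m) (Fin m) 𝕜) (hU : Uᴴ * U = 1)
    (α β : Fin m → 𝕜) (hα : ∀ i, α i ≠ 0) (hβ : ∀ j, β j ≠ 0)
    (hA : ∀ i j, A (r i) (c j) = α i * U i j * β j) (μ : ℝ) (hμ : ∀ i j, ‖U i j‖ ≤ μ)
    (π : Fin p → ℕ) (S : Finset (Fin p)) (hS : 32 * S.card ≤ m)
    (h1 : ∀ u v, (∀ e, C.head e ≠ u) → (∀ e, C.head e ≠ v) → C.label u = C.label v → π u = π v)
    (h2 : ∀ e e', C.Live π S e → C.Live π S e' →
      s(π (C.tail e), π (C.head e)) = s(π (C.tail e'), π (C.head e')) → C.tail e = C.tail e')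
    (D k : ℕ) (hD : 2 ≤ D)
    (h3 : ∀ a, {e | C.Live π S e ∧ (π (C.tail e) = a ∨ π (C.head e) = a)}.ncard +
      {j | ∃ v, (∀ e, C.head e ≠ v) ∧ C.label v = c j ∧ π v = a}.ncard +
      {i | π (C.output (r i)) = a}.ncard ≤ D)
    (h4 : ((2 * k + 2 : ℕ) : ℕ∞) < (C.partGraph π S).egirth)
    (h5 : 64 * (D : ℝ) ^ (2 * k) * μ ≤ 1) : k * m ≤ 64 * {e | C.Live π S e}.ncard := by
  classical
  rcases m.eq_zero_or_pos with rfl | m0
  · simp
  have μ0 : 0 ≤ μ := (norm_nonneg _).trans (hμ ⟨0, m0⟩ ⟨0, m0⟩)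
  obtain ⟨ρ, hρ⟩ := exists_rank C
  choose val v1 v2 v3 using fun j => hC (Pi.single (c j) (β j)⁻¹)
  let Z : Matrix (Fin p) (Fin m) 𝕜 := of fun v j => val j v
  let B : Matrix (Fin p) (Fin m) 𝕜 :=
    of fun v j => if (∀ e, C.head e ≠ v) ∧ C.label v = c j then (β j)⁻¹ else 0
  let O : Matrix (Fin m) (Fin p) 𝕜 := of fun i v => if C.output (r i) = v then (α i)⁻¹ else 0
  have e1 : Z = Wm C C.weight * Z + B := by
    ext v j
    rw [Matrix.add_apply, mul_apply]
    simp only [Z, B, of_apply]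
    rw [Wm_mulVec]
    by_cases hv : ∀ e, C.head e ≠ v
    · rw [v1 j v hv, sum_eq_zero fun e he => absurd (mem_filter.1 he).2 (hv e), zero_add,
        Pi.single_apply]
      simp [hv]
    · rw [if_neg fun h' => hv h'.1, ← v2 j v (by simpa using hv), add_zero]
  have e2 : O * Z = U := by
    ext i j
    have := hα i
    have := hβ j
    simp [mul_apply, O, Z, v3, hA]
    field_simp
  let A0 : Matrix S (Fin m) 𝕜 := Z.submatrix (↑) id
  let wi : Fin q → 𝕜 := fun e =>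
    if C.tail e ∉ S ∧ C.head e ∉ S ∧ π (C.tail e) = π (C.head e) then C.weight e else 0
  let we : Fin q → 𝕜 := fun e => if C.Live π S e then C.weight e else 0
  have e3 : ∀ x, A0 *ᵥ x = 0 →
      (1 - Wm C wi) *ᵥ Z *ᵥ x = Wm C we *ᵥ Z *ᵥ x + B *ᵥ x := fun x h => by
    have h6 : ∀ v ∈ S, (Z *ᵥ x) v = 0 := fun v hv => congrFun h ⟨v, hv⟩
    have h7 : Z *ᵥ x = Wm C C.weight *ᵥ Z *ᵥ x + B *ᵥ x := by
      conv_lhs => rw [e1, add_mulVec, ← mulVec_mulVec]
    have h8 : ∀ v, (∃ e, C.head e = v) → (B *ᵥ x) v = 0 := fun v ⟨e, he⟩ => by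
      have : ¬ ∀ e, C.head e ≠ v := fun h' => h' e he
      simp [B, mulVec, dotProduct, this]
    generalize Z *ᵥ x = z, B *ᵥ x = b at h6 h7 h8 ⊢
    funext v
    have h9 := congrFun h7 v
    have h10 : ∀ w, (Wm C w *ᵥ z) v = ∑ e with C.head e = v, w e * z (C.tail e) :=
      fun w => Wm_mulVec C w z v
    rw [sub_mulVec, one_mulVec, Pi.sub_apply, sub_eq_iff_eq_add', Pi.add_apply, ← add_assoc, h10,
      h10, ← sum_add_distrib]
    rw [Pi.add_apply, h10] at h9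
    by_cases hv : v ∈ S ∧ ∃ e, C.head e = v
    · rw [h6 v hv.1, h8 v hv.2, add_zero, sum_eq_zero fun e he => ?_]
      have : C.head e ∈ S := (mem_filter.1 he).2 ▸ hv.1
      simp [wi, we, Circuit.Live, this]
    · rw [h9]
      congr 1
      refine sum_congr rfl fun e he => ?_
      have h11 : C.head e ∉ S := fun h' => hv ⟨(mem_filter.1 he).2 ▸ h', e, (mem_filter.1 he).2⟩
      by_cases h12 : C.tail e ∈ S
      · simp [h6 _ h12]
      · by_cases h13 : π (C.tail e) = π (C.head e) <;> simp [wi, we, Circuit.Live, h11, h12, h13]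
  have d1 : (1 - Wm C wi).det ≠ 0 := by
    rw [det_one_sub C _ fun v u h => let ⟨e, a, b, _⟩ := Wm_ne C h; ⟨e, a, b⟩]
    exact one_ne_zero
  set R := (1 - Wm C wi)⁻¹ with hR
  have d2 : ∀ v u, (1 - Wm C wi) v u ≠ 0 → π v = π u ∧ ρ u ≤ ρ v := fun v u h => by
    by_cases e : v = u
    · exact ⟨by rw [e], by rw [e]⟩
    · rw [Matrix.sub_apply, one_apply_ne e, zero_sub, neg_ne_zero] at h
      obtain ⟨f, rfl, rfl, h6⟩ := Wm_ne C h
      exact ⟨(by_contra fun h' => h6 (if_neg fun h'' => h' h''.2.2.symm)), (hρ f).le⟩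
  have d3 : ∀ v u, R v u ≠ 0 → π v = π u ∧ ρ u ≤ ρ v := fun v u h =>
    ⟨le_antisymm (inv_loc d1 (fun a b e => (d2 a b e).1.le) v u h)
      (inv_loc d1 (b := OrderDual.toDual ∘ π) (fun a b e => (d2 a b e).1.ge) v u h),
      inv_loc d1 (b := OrderDual.toDual ∘ ρ) (fun a b e => (d2 a b e).2) v u h⟩
  let E := {e : Fin q // C.Live π S e ∧ (∃ x, A0 *ᵥ x = 0 ∧ (Z *ᵥ x) (C.tail e) ≠ 0) ∧
    ∀ e', C.Live π S e' → C.tail e' = C.tail e → π (C.head e') = π (C.head e) → e ≤ e'}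
  have w1 : ∀ w w' : E, C.tail w = C.tail w' → π (C.head w) = π (C.head w') → w = w' :=
    fun w w' a b => Subtype.ext (le_antisymm (w.2.2.2 _ w'.2.1 a.symm b.symm)
      (w'.2.2.2 _ w.2.1 a b))
  let Hd : Matrix (Fin p) E 𝕜 :=
    of fun v w => if π v = π (C.head w) then Wm C we v (C.tail w) else 0
  let Tl : Matrix E (Fin p) 𝕜 := of fun w u => if C.tail w = u then 1 else 0
  have w2 : ∀ z w, (Tl *ᵥ z) w = z (C.tail w) := fun z w => by simp [Tl, mulVec, dotProduct]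
  have w3 : ∀ v u, Wm C we v u ≠ 0 → ∃ e, C.tail e = u ∧ C.head e = v ∧ C.Live π S e :=
    fun v u h => let ⟨e, a, b, h⟩ := Wm_ne C h; ⟨e, a, b, by_contra fun h' => h (if_neg h')⟩
  have e4 : ∀ x, A0 *ᵥ x = 0 → Z *ᵥ x = R *ᵥ (Hd *ᵥ Tl *ᵥ Z *ᵥ x + B *ᵥ x) := fun x h => by
    have h6 : Hd *ᵥ Tl *ᵥ Z *ᵥ x = Wm C we *ᵥ Z *ᵥ x := by
      funext v
      show ∑ w, Hd v w * (Tl *ᵥ Z *ᵥ x) w = ∑ u, Wm C we v u * (Z *ᵥ x) u
      simp only [w2, Hd, of_apply, ite_mul, zero_mul]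
      rw [← sum_filter]
      refine sum_of_injOn (fun w : E => C.tail w) (fun w hw w' hw' e => w1 w w' e ?_)
        (fun _ _ => mem_univ _) (fun u _ hu => by_contra fun h' => hu ?_) fun _ _ => rfl
      · exact (mem_filter.1 hw).2.symm.trans (mem_filter.1 hw').2
      · obtain ⟨e, rfl, rfl, he⟩ := w3 _ _ (left_ne_zero_of_mul h')
        obtain ⟨e', a, b⟩ := exists_min_image (univ.filter fun e' => C.Live π S e' ∧
          C.tail e' = C.tail e ∧ π (C.head e') = π (C.head e)) id ⟨e, by simp [he]⟩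
        obtain ⟨a1, a2, a3⟩ := (mem_filter.1 a).2
        exact ⟨⟨e', a1, ⟨x, h, a2 ▸ right_ne_zero_of_mul h'⟩, fun f f1 f2 f3 =>
          b f (mem_filter.2 ⟨mem_univ _, f1, f2.trans a2, f3.trans a3⟩)⟩,
          mem_filter.2 ⟨mem_univ _, a3.symm⟩, a2⟩
    rw [h6, ← e3 x h, mulVec_mulVec, nonsing_inv_mul _ d1.isUnit, one_mulVec]
  let li : Fin m → ℕ := fun j => if h : ∃ v, (∀ e, C.head e ≠ v) ∧ C.label v = c j
    then π h.choose else univ.sup π + 1 + j
  have s1 : ∀ w u, Tl w u ≠ 0 → C.tail w = u := fun w u h => by_contra fun h' => h (if_neg h')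
  have s2 : ∀ i u, O i u ≠ 0 → C.output (r i) = u := fun w u h => by_contra fun h' => h (if_neg h')
  have s3 : ∀ v w, Hd v w ≠ 0 → π v = π (C.head w) ∧ ρ (C.tail w) < ρ v := fun v w h => by
    have h6 : π v = π (C.head w) := by_contra fun h' => h (if_neg h')
    obtain ⟨e, a, b, -⟩ := w3 v (C.tail w) fun h' => h ((if_pos h6).trans h')
    exact ⟨h6, a ▸ b ▸ hρ e⟩
  have s4 : ∀ v j, B v j ≠ 0 → π v = li j := fun v j h => by
    have h6 : (∀ e, C.head e ≠ v) ∧ C.label v = c j := by_contra fun h' => h (if_neg h')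
    have h7 : ∃ v, (∀ e, C.head e ≠ v) ∧ C.label v = c j := ⟨v, h6⟩
    rw [show li j = π h7.choose from dif_pos h7]
    exact h1 _ _ h6.1 h7.choose_spec.1 (h6.2.trans h7.choose_spec.2.symm)
  have h := net (G := C.partGraph π S) (T := Tl * R * Hd) (B := Tl * R * B) (C := O * R * Hd)
    (D := O * R * B) (tl := fun w => π (C.tail w)) (hd := fun w => π (C.head w))
    (ρ := fun w => ρ (C.tail w)) (li := li) (lo := fun i => π (C.output (r i)))
    (fun w w' h => by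
      obtain ⟨u, v, a, b, d⟩ := mul3_ne h
      obtain rfl := s1 _ _ a
      exact ⟨(d3 _ _ b).1.trans (s3 _ _ d).1, (s3 _ _ d).2.trans_le (d3 _ _ b).2⟩)
    (fun w j h => by
      obtain ⟨u, v, a, b, d⟩ := mul3_ne h
      obtain rfl := s1 _ _ a
      exact (d3 _ _ b).1.trans (s4 _ _ d))
    (fun i w h => by
      obtain ⟨u, v, a, b, d⟩ := mul3_ne h
      obtain rfl := s2 _ _ a
      exact (d3 _ _ b).1.trans (s3 _ _ d).1)
    (fun i j h => by
      obtain ⟨u, v, a, b, d⟩ := mul3_ne h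
      obtain rfl := s2 _ _ a
      exact (d3 _ _ b).1.trans (s4 _ _ d))
    (fun w => (SimpleGraph.fromRel_adj _ _ _).2 ⟨w.2.1.2.2, .inl ⟨w, w.2.1, rfl, rfl⟩⟩)
    (fun w w' h => by
      have a := h2 _ _ w.2.1 w'.2.1 h
      refine w1 w w' a ?_
      rw [a] at h
      exact Sym2.congr_right.1 h)
    h4 hD (fun a => ?_) hU μ0 hμ h5 (Z := Tl * Z) (A := A0)
    ((Nat.mul_le_mul_left 32 (rank_le_card_height _)).trans (by simpa using hS))
    (fun w => by
      obtain ⟨x, a, b⟩ := w.2.2.1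
      exact ⟨x, a, by rwa [← mulVec_mulVec, w2]⟩)
    fun x hx => by
      have := e4 x hx
      rw [← e2]
      simp only [← mulVec_mulVec, ← mulVec_add, ← this, and_self]
  · rw [Fintype.card_fin] at h
    refine h.trans (Nat.mul_le_mul_left _ ?_)
    exact card_le_ncard (s := univ) Subtype.val_injective fun w _ => w.2.1
  · have l1 : ∀ j, li j = a → (∃ v, (∀ e, C.head e ≠ v) ∧ C.label v = c j ∧ π v = a) ∨
        univ.sup π + 1 + j = a := fun j hj => by
      by_cases h : ∃ v, (∀ e, C.head e ≠ v) ∧ C.label v = c j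
      · exact .inl ⟨_, h.choose_spec.1, h.choose_spec.2, (dif_pos h).symm.trans hj⟩
      · exact .inr ((dif_neg h).symm.trans hj)
    by_cases ha : ∃ v, π v = a
    · obtain ⟨v, rfl⟩ := ha
      have l2 : π v ≤ univ.sup π := le_sup (mem_univ v)
      refine le_trans ?_ (h3 (π v))
      rw [add_assoc _ (Set.ncard _), ← card_union_of_disjoint (disjoint_filter.2 fun w _ a b =>
        w.2.1.2.2 (a.trans b.symm))]
      refine add_le_add (card_le_ncard Subtype.val_injective fun w hw => ⟨w.2.1, ?_⟩)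
        (add_le_add (card_le_ncard Function.injective_id fun j hj => ?_)
          (card_le_ncard Function.injective_id fun i hi => (mem_filter.1 hi).2))
      · simpa using hw
      · exact (l1 j (mem_filter.1 hj).2).resolve_right (by omega)
    · rw [filter_eq_empty_iff.2 fun w _ h => ha ⟨_, h⟩, filter_eq_empty_iff.2 fun w _ h => ha ⟨_, h⟩,
        filter_eq_empty_iff (p := fun i => π (C.output (r i)) = a).2 fun w _ h => ha ⟨_, h⟩]
      have l3 : ∀ j, li j = a → univ.sup π + 1 + j = a := fun j hj =>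
        (l1 j hj).resolve_left fun ⟨v, h⟩ => ha ⟨v, h.2.2⟩
      have := card_le_one.2 fun j (hj : j ∈ univ.filter fun j => li j = a) j' hj' => Fin.ext (by
        have := l3 j (mem_filter.1 hj).2
        have := l3 j' (mem_filter.1 hj').2
        omega)
      simp only [card_empty]
      omega

end Pool.Agent.MP_5daf37_lc.TL
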