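import Pool.Agent.MP_5daf37_lc.TL.Mass

/-!
A fixed point of the energy messages and the associated kernel.
-/

open Matrix Finset

namespace Pool.Agent.MP_5daf37_lc.TL

open BN

variable {𝕜 : Type} [RCLike 𝕜] {H P W L : Type} [Fintype H] [Fintype P] [Fintype W] [Fintype L]

/-- The energy of the ports other than `h`. -/
noncomputable def En [DecidableEq H] (J : Matrix H P 𝕜) (ω : H → ℝ) (h : H) (ξ : P → 𝕜) : ℝ :=
  ∑ t ∈ univ.erase h, ω t * ‖(J *ᵥ ξ) t‖ ^ 2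

/-- The energies of the local solutions with value one at `h`. -/
def Es [DecidableEq H] (J : Matrix H P 𝕜) (ω : H → ℝ) (h : H) : Set ℝ :=
  {e | ∃ ξ, (J *ᵥ ξ) h = 1 ∧ e = En J ω h ξ}

theorem En_mono [DecidableEq H] (J : Matrix H P 𝕜) {ω ω' : H → ℝ} (h : ∀ t, ω t ≤ ω' t) (s : H)
    (ξ : P → 𝕜) : En J ω s ξ ≤ En J ω' s ξ :=
  sum_le_sum fun t _ => mul_le_mul_of_nonneg_right (h t) (sq_nonneg _)

theorem En_nonneg [DecidableEq H] (J : Matrix H P 𝕜) {ω : H → ℝ} (h : ∀ t, 0 ≤ ω t) (s : H)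
    (ξ : P → 𝕜) : 0 ≤ En J ω s ξ :=
  sum_nonneg fun t _ => mul_nonneg (h t) (sq_nonneg _)

theorem tarski [DecidableEq W] [DecidableEq L] (J : Matrix (W ⊕ L) P 𝕜) {σ : W → W}
    (hσ : ∀ h, σ (σ h) = h) {b : W → ℝ} (b0 : 0 ≤ b)
    (hb : ∀ h, ∃ ξ, (J *ᵥ ξ) (.inl h) = 1 ∧ En J (Sum.elim b 1) (.inl h) ξ ≤ b (σ h)) :
    ∃ ω : W → ℝ, (∀ h, 0 ≤ ω h) ∧ ∀ h, IsGLB (Es J (Sum.elim ω 1) (.inl h)) (ω (σ h)) := by
  have : Fact ((0 : W → ℝ) ≤ b) := ⟨b0⟩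
  have h0 : ∀ {ω ω' : W → ℝ}, ω ≤ ω' → ∀ t : W ⊕ L, Sum.elim ω 1 t ≤ Sum.elim ω' 1 t :=
    fun h => by rintro (t | t); exacts [h t, le_rfl]
  have h1 : ∀ {ω : W → ℝ}, 0 ≤ ω → ∀ t : W ⊕ L, 0 ≤ Sum.elim ω 1 t :=
    fun h => by rintro (t | t); exacts [h t, zero_le_one]
  have h2 : ∀ (ω : W → ℝ) h, (Es J (Sum.elim ω 1) (.inl h)).Nonempty := fun ω h =>
    let ⟨ξ, e, _⟩ := hb h
    ⟨_, ξ, e, rfl⟩
  have h3 : ∀ {ω : W → ℝ}, 0 ≤ ω → ∀ h, (0 : ℝ) ∈ lowerBounds (Es J (Sum.elim ω 1) (.inl h)) :=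
    fun hω h => by rintro _ ⟨ξ, -, rfl⟩; exact En_nonneg J (h1 hω) _ ξ
  let f : Set.Icc (0 : W → ℝ) b →o Set.Icc (0 : W → ℝ) b :=
    ⟨fun ω => ⟨fun h => sInf (Es J (Sum.elim ω.1 1) (.inl (σ h))),
      fun h => le_csInf (h2 _ _) (h3 ω.2.1 _), fun h => by
        obtain ⟨ξ, e1, e2⟩ := hb (σ h)
        rw [hσ] at e2
        exact (csInf_le ⟨0, h3 ω.2.1 _⟩ ⟨ξ, e1, rfl⟩).trans ((En_mono J (h0 ω.2.2) _ ξ).trans e2)⟩,
      fun ω ω' hω h => le_csInf (h2 _ _) (by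
        rintro _ ⟨ξ, e1, rfl⟩
        exact (csInf_le ⟨0, h3 ω.2.1 _⟩ ⟨ξ, e1, rfl⟩).trans (En_mono J (h0 hω) _ ξ))⟩
  refine ⟨f.lfp.1, f.lfp.2.1, fun h => ?_⟩
  have e : sInf (Es J (Sum.elim f.lfp.1 1) (.inl (σ (σ h)))) = f.lfp.1 (σ h) :=
    congrFun (congrArg Subtype.val f.map_lfp) (σ h)
  rw [hσ] at e
  rw [← e]
  exact isGLB_csInf (h2 _ _) ⟨0, h3 f.lfp.2.1 _⟩

omit [Fintype H] in
theorem wcs (s : Finset H) {ω : H → ℝ} (h : ∀ t, 0 ≤ ω t) (u v : H → 𝕜) :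
    ‖∑ t ∈ s, u t * (ω t : 𝕜) * v t‖ ^ 2 ≤
      (∑ t ∈ s, ω t * ‖u t‖ ^ 2) * ∑ t ∈ s, ω t * ‖v t‖ ^ 2 := by
  refine (pow_le_pow_left₀ (norm_nonneg _) (norm_sum_le _ _) 2).trans
    (sum_sq_le_sum_mul_sum_of_sq_le_mul s (fun t _ => mul_nonneg (h t) (sq_nonneg _))
      (fun t _ => mul_nonneg (h t) (sq_nonneg _)) fun t _ => le_of_eq ?_)
  rw [norm_mul, norm_mul, RCLike.norm_ofReal, abs_of_nonneg (h t)]
  ring

theorem inv_loc [DecidableEq P] {M : Matrix P P 𝕜} (hM : M.det ≠ 0) {α : Type} [LinearOrder α]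
    {b : P → α} (h : ∀ p q, M p q ≠ 0 → b p ≤ b q) (p q : P) (e : M⁻¹ p q ≠ 0) : b p ≤ b q := by
  have := invertibleOfIsUnitDet M hM.isUnit
  have h1 : BlockTriangular M b := fun p q e => by_contra fun h2 => absurd (h p q h2) (not_le.2 e)
  exact not_lt.1 fun h2 => e (blockTriangular_inv_of_blockTriangular h1 h2)

theorem exists_kernel [DecidableEq H] [DecidableEq P] (J : Matrix H P 𝕜) {ω : H → ℝ}
    (h0 : ∀ t, 0 ≤ ω t) (hJ : ∀ ξ, (∀ t, ω t ≠ 0 → (J *ᵥ ξ) t = 0) → ξ = 0)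
    {loc : H → ℕ} {loc' : P → ℕ} (hl : ∀ t p, J t p ≠ 0 → loc t = loc' p) :
    ∃ (K : Matrix H H 𝕜) (κ : H → ℝ), (∀ s t, ‖K s t‖ = ‖K t s‖) ∧ (∀ s, K s s = κ s) ∧
      (∀ s, ∑ t, ω t * ‖K s t‖ ^ 2 = κ s) ∧ ∑ s, ω s * κ s = Fintype.card P ∧
      (∀ ξ s, (J *ᵥ ξ) s = ∑ t, K s t * (ω t : 𝕜) * (J *ᵥ ξ) t) ∧
      (∀ s t, K s t ≠ 0 → loc s = loc t) ∧
      ∀ s a, (Es J ω s).Nonempty → IsGLB (Es J ω s) a → κ s * (ω s + a) = 1 := by
  set Ω : Matrix H H 𝕜 := diagonal fun t => (ω t : 𝕜) with hΩ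
  set M := Jᴴ * Ω * J with hM
  have m0 : M.det ≠ 0 := fun e => by
    obtain ⟨ξ, x0, x1⟩ := exists_mulVec_eq_zero_iff.2 e
    refine x0 (hJ ξ fun t ht => ?_)
    have h1 : ((∑ t, ω t * ‖(J *ᵥ ξ) t‖ ^ 2 : ℝ) : 𝕜) = star ξ ⬝ᵥ M *ᵥ ξ := by
      rw [hM, Matrix.mul_assoc, ← mulVec_mulVec, dotProduct_mulVec, ← star_mulVec, ← mulVec_mulVec]
      push_cast
      refine sum_congr rfl fun t _ => ?_
      rw [hΩ, mulVec_diagonal, mul_left_comm, Pi.star_apply, RCLike.star_def, RCLike.conj_mul]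
    rw [x1, dotProduct_zero, RCLike.ofReal_eq_zero,
      sum_eq_zero_iff_of_nonneg fun t _ => mul_nonneg (h0 t) (sq_nonneg _)] at h1
    simpa [ht] using h1 t (mem_univ t)
  have m1 : Mᴴ = M := by
    rw [hM, hΩ]
    simp [conjTranspose_mul, Matrix.mul_assoc, diagonal_conjTranspose, Pi.star_def]
  set K := J * M⁻¹ * Jᴴ with hK
  have k1 : Kᴴ = K := by
    rw [hK, conjTranspose_mul, conjTranspose_mul, conjTranspose_conjTranspose,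
      conjTranspose_nonsing_inv, m1, Matrix.mul_assoc]
  have k2 : K * Ω * J = J := by
    rw [hK, Matrix.mul_assoc, Matrix.mul_assoc, Matrix.mul_assoc, ← Matrix.mul_assoc Jᴴ, ← hM,
      nonsing_inv_mul _ m0.isUnit, Matrix.mul_one]
  have k3 : K * Ω * K = K := by
    conv_lhs => rw [hK, ← Matrix.mul_assoc, ← Matrix.mul_assoc, ← hK, k2]
  have k4 : ∀ s t, K t s = star (K s t) := fun s t => by rw [← conjTranspose_apply, k1]
  have k5 : ∀ s, K s s = ((∑ t, ω t * ‖K s t‖ ^ 2 : ℝ) : 𝕜) := fun s => by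
    conv_lhs => rw [← k3, mul_apply]
    push_cast
    refine sum_congr rfl fun t _ => ?_
    rw [hΩ, mul_diagonal, k4 s t, mul_comm (K s t), mul_assoc, RCLike.star_def, RCLike.mul_conj]
  have k6 : ∀ ξ s, (J *ᵥ ξ) s = ∑ t, K s t * (ω t : 𝕜) * (J *ᵥ ξ) t := fun ξ s => by
    conv_lhs => rw [← k2, ← mulVec_mulVec]
    exact sum_congr rfl fun t _ => congrArg (· * (J *ᵥ ξ) t) (mul_diagonal _ K s t)
  have k7 : ∀ s t, ‖K s t‖ = ‖K t s‖ := fun s t => by rw [k4 s t, norm_star]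
  refine ⟨K, fun s => ∑ t, ω t * ‖K s t‖ ^ 2, k7, k5, fun _ => rfl, ?_, k6, fun s t e => ?_,
    fun s a hne ha => ?_⟩
  · apply RCLike.ofReal_injective (K := 𝕜)
    have : (Ω * K).trace = Fintype.card P := by
      rw [hK, ← Matrix.mul_assoc, ← Matrix.mul_assoc, trace_mul_comm, ← Matrix.mul_assoc,
        ← Matrix.mul_assoc, ← hM, mul_nonsing_inv _ m0.isUnit, trace_one]
    rw [RCLike.ofReal_natCast, ← this, RCLike.ofReal_sum]
    exact sum_congr rfl fun s _ => by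
      rw [RCLike.ofReal_mul, ← k5, diag_apply, hΩ, diagonal_mul]
  · have h1 : ∀ p q, M p q ≠ 0 → loc' p = loc' q := fun p q e => by
      rw [hM, mul_apply] at e
      obtain ⟨t, -, e⟩ := exists_ne_zero_of_sum_ne_zero e
      rw [hΩ, mul_diagonal, conjTranspose_apply] at e
      exact (hl t p (star_ne_zero.1 (left_ne_zero_of_mul (left_ne_zero_of_mul e)))).symm.trans
        (hl t q (right_ne_zero_of_mul e))
    rw [hK, mul_apply] at e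
    obtain ⟨q, -, e⟩ := exists_ne_zero_of_sum_ne_zero e
    have e1 := left_ne_zero_of_mul e
    rw [mul_apply] at e1
    obtain ⟨p, -, e1⟩ := exists_ne_zero_of_sum_ne_zero e1
    have e2 := right_ne_zero_of_mul e1
    rw [hl s p (left_ne_zero_of_mul e1), hl t q (star_ne_zero.1 (right_ne_zero_of_mul e))]
    exact le_antisymm (inv_loc m0 (fun p q e => (h1 p q e).le) p q e2)
      (inv_loc m0 (b := OrderDual.toDual ∘ loc') (fun p q e => (h1 p q e).ge) p q e2)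
  · set κ := ∑ t, ω t * ‖K s t‖ ^ 2 with hκ
    have c0 : 0 ≤ κ := sum_nonneg fun t _ => mul_nonneg (h0 t) (sq_nonneg _)
    have c1 : ∀ e ∈ Es J ω s, 1 ≤ κ * (ω s + e) := by
      rintro _ ⟨ξ, e1, rfl⟩
      have := wcs univ h0 (K s) (J *ᵥ ξ)
      rwa [← k6, e1, ← add_sum_erase _ (fun t => ω t * ‖(J *ᵥ ξ) t‖ ^ 2) (mem_univ s), e1,
        norm_one, one_pow, mul_one] at this
    have c2 : 0 < κ := c0.lt_of_ne fun e => by
      obtain ⟨a, ha⟩ := hne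
      have := c1 a ha
      rw [← e, zero_mul] at this
      exact absurd this (by norm_num)
    have c3 : κ⁻¹ - ω s ∈ Es J ω s := by
      have e1 : ∀ t, (J *ᵥ fun p => (M⁻¹ * Jᴴ) p s * ((κ⁻¹ : ℝ) : 𝕜)) t =
          K t s * ((κ⁻¹ : ℝ) : 𝕜) := fun t => by
        rw [hK, Matrix.mul_assoc, mul_apply, sum_mul]
        exact sum_congr rfl fun p _ => (mul_assoc _ _ _).symm
      refine ⟨fun p => (M⁻¹ * Jᴴ) p s * ((κ⁻¹ : ℝ) : 𝕜), ?_, ?_⟩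
      · rw [e1, k5, ← hκ, ← RCLike.ofReal_mul, mul_inv_cancel₀ c2.ne', RCLike.ofReal_one]
      · have e2 := add_sum_erase _ (fun t => ω t * ‖K s t‖ ^ 2) (mem_univ s)
        rw [← hκ, k5, ← hκ, RCLike.norm_ofReal, sq_abs] at e2
        simp only [En, e1, norm_mul, RCLike.norm_ofReal, mul_pow, sq_abs, ← mul_assoc, ← sum_mul,
          ← k7 s]
        rw [eq_sub_of_add_eq' e2]
        field_simp
    have c4 : a = κ⁻¹ - ω s := le_antisymm (ha.1 c3) (ha.2 fun e he => by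
      rw [sub_le_iff_le_add', inv_le_iff_one_le_mul₀' c2]; exact c1 e he)
    rw [c4, add_sub_cancel, mul_inv_cancel₀ c2.ne']

theorem exists_super {α : Type} [Fintype α] (ρ : α → ℕ) {f : α → α → ℝ} {c : α → ℝ}
    (f0 : ∀ a b, 0 ≤ f a b) (c0 : ∀ a, 0 ≤ c a) (h : ∀ a b, f a b ≠ 0 → ρ b < ρ a) :
    ∃ x : α → ℝ, (∀ a, 0 ≤ x a) ∧ ∀ a, ∑ b, f a b * x b + c a ≤ x a := by
  set θ := 1 + ∑ a, (∑ b, f a b + c a) with hθ
  have h1 : ∀ a, ∑ b, f a b + c a ≤ θ := fun a =>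
    (single_le_sum (f := fun a => ∑ b, f a b + c a)
      (fun a _ => add_nonneg (sum_nonneg fun b _ => f0 a b) (c0 a)) (mem_univ a)).trans
      (by linarith)
  have h2 : 1 ≤ θ := le_add_of_nonneg_right
    (sum_nonneg fun a _ => add_nonneg (sum_nonneg fun b _ => f0 a b) (c0 a))
  refine ⟨fun a => θ ^ (ρ a + 1), fun a => by positivity, fun a => ?_⟩
  have h3 : ∑ b, f a b * θ ^ (ρ b + 1) ≤ (∑ b, f a b) * θ ^ ρ a := by
    rw [sum_mul]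
    refine sum_le_sum fun b _ => ?_
    by_cases e : f a b = 0
    · simp [e]
    · exact mul_le_mul_of_nonneg_left (pow_le_pow_right₀ h2 (h a b e)) (f0 a b)
  have h4 : c a ≤ c a * θ ^ ρ a := le_mul_of_one_le_right (c0 a) (one_le_pow₀ h2)
  have h5 := mul_le_mul_of_nonneg_right (h1 a) (pow_nonneg (by linarith : 0 ≤ θ) (ρ a))
  show ∑ b, f a b * θ ^ (ρ b + 1) + c a ≤ θ ^ (ρ a + 1)
  rw [pow_succ' θ (ρ a)]
  linarith

end Pool.Agent.MP_5daf37_lc.TL
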