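import Mathlib

/-!
Non-backtracking walks below the girth are unique.
-/

open SimpleGraph

namespace Pool.Agent.MP_5daf37_lc.TL

variable {V : Type} {G : SimpleGraph V}

theorem path_unique {u v : V} {p q : G.Walk u v} (hp : p.IsPath) (hq : q.IsPath)
    (h : ((p.length + q.length : ℕ) : ℕ∞) < G.egirth) : p = q := by
  classical
  let G' : SimpleGraph V := fromEdgeSet {e | e ∈ p.edges ++ q.edges}
  have h1 : ∀ e ∈ p.edges ++ q.edges, e ∈ G.edgeSet := fun e he => by
    rcases List.mem_append.1 he with he | he
    exacts [p.edges_subset_edgeSet he, q.edges_subset_edgeSet he]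
  have h2 : ∀ e ∈ p.edges ++ q.edges, e ∈ G'.edgeSet := fun e he => by
    rw [edgeSet_fromEdgeSet]
    exact ⟨he, G.not_isDiag_of_mem_edgeSet (h1 e he)⟩
  have h3 : G'.IsAcyclic := fun a c hc => by
    have h4 : ∀ e ∈ c.edges, e ∈ p.edges ++ q.edges := fun e he => by
      have := c.edges_subset_edgeSet he
      rw [edgeSet_fromEdgeSet] at this
      exact this.1
    have h5 := egirth_le_length (hc.transfer fun e he => h1 e (h4 e he))
    rw [Walk.length_transfer] at h5
    have h6 := (hc.edges_nodup.subperm h4).length_le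
    rw [List.length_append, Walk.length_edges, Walk.length_edges, Walk.length_edges] at h6
    exact absurd (h.trans_le h5) (not_lt.2 (by exact_mod_cast h6))
  have h7 := (h3.subsingleton_path u v).elim
    ⟨p.transfer G' fun e he => h2 e (List.mem_append_left _ he), hp.transfer _⟩
    ⟨q.transfer G' fun e he => h2 e (List.mem_append_right _ he), hq.transfer _⟩
  have h8 := congrArg (fun r : G'.Path u v => r.1.support) h7
  simp only [Walk.support_transfer] at h8
  exact Walk.ext_support h8

/-- Ports `H` sit at vertices of `G`; the ports with `wire` are the halves of the edges, which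
`σ` pairs. -/
structure Ports (G : SimpleGraph V) {H : Type} (wire : H → Prop) (σ : H → H) (loc : H → V) :
    Prop where
  inv : ∀ t, σ (σ t) = t
  fix : ∀ t, ¬ wire t → σ t = t
  adj : ∀ t, wire t → G.Adj (loc t) (loc (σ t))
  uniq : ∀ s t, wire s → wire t → loc s = loc t → loc (σ s) = loc (σ t) → s = t

variable {H : Type} {wire : H → Prop} {σ : H → H} {loc : H → V}

/-- The states reached by non-backtracking steps. -/
inductive Reach (wire : H → Prop) (σ : H → H) (loc : H → V) (s : H) : ℕ → H → Prop
  | zero : Reach wire σ loc s 0 s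
  | step {i c t} : Reach wire σ loc s i c → wire t → loc c = loc (σ t) → c ≠ σ t →
      Reach wire σ loc s (i + 1) t

theorem Ports.wire_σ (P : Ports G wire σ loc) {t : H} (h : wire t) : wire (σ t) := by
  by_contra h'
  have h1 := P.fix _ h'
  rw [P.inv] at h1
  exact h' (h1 ▸ h)

open Classical in
theorem Ports.exists_path (P : Ports G wire σ loc) {k : ℕ}
    (hk : ((2 * k + 2 : ℕ) : ℕ∞) < G.egirth) {s c : H} {i : ℕ} (h : Reach wire σ loc s i c)
    (hi : i ≤ k) : ∃ p : G.Walk (loc c) (loc (σ s)), p.IsPath ∧
      p.length = i + (if wire s then 1 else 0) ∧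
      (wire c → p.getVert 1 = loc (σ c) ∧ 0 < p.length) ∧ (¬ wire c → p.length = 0 ∧ c = s) := by
  induction h with
  | zero =>
    by_cases hs : wire s
    · refine ⟨.cons (P.adj s hs) .nil, ?_, by simp [hs], fun _ => by simp, fun h => absurd hs h⟩
      simpa using (P.adj s hs).ne
    · refine ⟨Walk.nil.copy rfl (by rw [P.fix s hs]), by simp, by simp [hs],
        fun h => absurd h hs, fun _ => by simp⟩
  | @step i c t _ ht e ne ih =>
    obtain ⟨p, p1, p2, p3, p4⟩ := ih (by omega)
    have a1 : G.Adj (loc t) (loc c) := e ▸ P.adj t ht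
    have l1 : p.length ≤ k := by rw [p2]; split_ifs <;> omega
    refine ⟨.cons a1 p, ?_, by simp [p2]; omega, fun _ => by simp [e], fun h => absurd ht h⟩
    rw [Walk.cons_isPath_iff]
    refine ⟨p1, fun hm => ?_⟩
    have h1 : p.takeUntil _ hm = .cons a1.symm .nil := by
      refine path_unique (p1.takeUntil hm) (by simpa using a1.ne') (lt_of_le_of_lt ?_ hk)
      have := p.length_takeUntil_le_length hm
      exact_mod_cast (by simp; omega)
    have h2 : p.getVert 1 = loc t := by
      rw [← p.take_spec hm, h1]; simp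
    have h3 : 0 < p.length := by
      rw [← p.take_spec hm, h1]; simp
    by_cases hc : wire c
    · exact ne (P.uniq _ _ hc (P.wire_σ ht) e (by rw [P.inv, ← h2, (p3 hc).1]))
    · exact h3.ne' (p4 hc).1

theorem Ports.unique (P : Ports G wire σ loc) {k : ℕ}
    (hk : ((2 * k + 2 : ℕ) : ℕ∞) < G.egirth) {s c c' : H} {i j : ℕ} (h : Reach wire σ loc s i c)
    (h' : Reach wire σ loc s j c') (hi : i ≤ k) (hj : j ≤ k) (e : loc c = loc c') :
    i = j ∧ c = c' := by
  obtain ⟨p, p1, p2, p3, p4⟩ := P.exists_path hk h hi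
  obtain ⟨q, q1, q2, q3, q4⟩ := P.exists_path hk h' hj
  have h1 : p = q.copy e.symm rfl := by
    refine path_unique p1 (by simpa using q1) (lt_of_le_of_lt ?_ hk)
    rw [Walk.length_copy, p2, q2]
    exact_mod_cast (by split_ifs <;> omega)
  have h2 : p.length = q.length := by rw [h1, Walk.length_copy]
  have h3 : p.getVert 1 = q.getVert 1 := by rw [h1, Walk.getVert_copy]
  refine ⟨by omega, ?_⟩
  by_cases hc : wire c <;> by_cases hc' : wire c'
  · exact P.uniq _ _ hc hc' e (by rw [← (p3 hc).1, h3, (q3 hc').1])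
  · have := (p3 hc).2; have := (q4 hc').1; omega
  · have := (q3 hc').2; have := (p4 hc).1; omega
  · rw [(p4 hc).2, (q4 hc').2]

end Pool.Agent.MP_5daf37_lc.TL
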