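import Pool.Agent.MP_5daf37_lc.BN.Core

/-!
Squares of the entries add up when there is no interference.
-/

open Matrix Finset

namespace Pool.Agent.MP_5daf37_lc.TL

open BN

variable {𝕜 : Type} [RCLike 𝕜] {l m n : Type} [Fintype l] [Fintype m] [Fintype n]

/-- The squared Frobenius norm. -/
noncomputable def hs (Y : Matrix l m 𝕜) : ℝ := ∑ i, ∑ j, ‖Y i j‖ ^ 2

/-- The matrix of the squared moduli of the entries. -/
noncomputable def sqm (Y : Matrix l m 𝕜) : Matrix l m ℝ := of fun i j => ‖Y i j‖ ^ 2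

theorem hs_eq (Y : Matrix l m 𝕜) : RCLike.re (Yᴴ * Y).trace = hs Y := by
  rw [hs, sum_comm, trace, map_sum]
  refine sum_congr rfl fun j _ => ?_
  have : (Yᴴ * Y) j j = nsq fun b => Y b j := by rw [nsq_eq]; rfl
  rw [diag_apply, this, RCLike.ofReal_re]; rfl

theorem hs_rows (Y : Matrix l n 𝕜) (Y' : Matrix m n 𝕜) : hs (fromRows Y Y') = hs Y + hs Y' := by
  simp [hs, Fintype.sum_sum_type]

theorem hs_smul (c : ℝ) (Y : Matrix l n 𝕜) : hs ((c : 𝕜) • Y) = c ^ 2 * hs Y := by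
  simp [hs, mul_pow, mul_sum]

theorem nsq_smul (c : ℝ) (v : l → 𝕜) : nsq ((c : 𝕜) • v) = c ^ 2 * nsq v := by
  simp [nsq, mul_pow, mul_sum]

theorem nsq_add_le (u v : l → 𝕜) {a b : ℝ} (ha : 0 < a) (hb : a * b = 1) :
    nsq (u + v) ≤ (1 + a) * nsq u + (1 + b) * nsq v := by
  rw [nsq, nsq, nsq, mul_sum, mul_sum, ← sum_add_distrib]
  refine sum_le_sum fun i _ => ?_
  refine (pow_le_pow_left₀ (norm_nonneg _) (norm_add_le (u i) (v i)) 2).trans ?_
  have h1 : 0 ≤ a * (a * ‖u i‖ ^ 2 + b * ‖v i‖ ^ 2 - 2 * ‖u i‖ * ‖v i‖) := by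
    have : a * (a * ‖u i‖ ^ 2 + b * ‖v i‖ ^ 2 - 2 * ‖u i‖ * ‖v i‖) = (a * ‖u i‖ - ‖v i‖) ^ 2 := by
      linear_combination ‖v i‖ ^ 2 * hb
    rw [this]; positivity
  have h2 := nonneg_of_mul_nonneg_right h1 ha
  nlinarith

theorem hs_mul_le (Y : Matrix l m 𝕜) {T : Matrix m n 𝕜} {c : ℝ}
    (h : ∀ y, nsq (Tᴴ *ᵥ y) ≤ c * nsq y) : hs (Y * T) ≤ c * hs Y := by
  rw [hs, hs, mul_sum]
  refine sum_le_sum fun i _ => ?_
  have h1 := h (star (Y i))
  rw [← star_vecMul] at h1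
  simp only [nsq, Pi.star_apply, norm_star] at h1
  exact h1

theorem cut [DecidableEq n] (Y : Matrix l n 𝕜) :
    ∃ S : Matrix n n 𝕜, (S.rank : ℝ) ≤ hs Y ∧ ∀ v, S *ᵥ v = 0 → nsq (Y *ᵥ v) ≤ nsq v := by
  obtain ⟨V, d, hd⟩ := exists_dg Yᴴ
  refine ⟨diagonal (fun i => if 1 < d i then (1 : 𝕜) else 0) * Vᴴ, ?_, fun v hv => ?_⟩
  · have h2 := rank_mul_le_left (diagonal fun i => if 1 < d i then (1 : 𝕜) else 0) Vᴴ
    rw [rank_diagonal, Fintype.card_subtype] at h2
    simp only [ne_eq, ite_eq_right_iff, one_ne_zero, imp_false, not_not] at h2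
    have h3 := hd.trace_eq
    rw [conjTranspose_conjTranspose, hs_eq] at h3
    rw [h3]
    refine (Nat.cast_le.2 h2).trans ?_
    rw [← mul_one (Nat.cast _), ← nsmul_eq_mul]
    exact (card_nsmul_le_sum _ d 1 fun i hi => (mem_filter.1 hi).2.le).trans
      (sum_le_sum_of_subset_of_nonneg (subset_univ _) fun i _ _ => hd.h3 i)
  · rw [hd.nsq_mulVec_eq, ← nsq_unitary (A := Vᴴ) (by simpa using hd.h2) v, nsq]
    refine sum_le_sum fun i _ => ?_
    by_cases h : 1 < d i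
    · have := congrFun hv i
      rw [← mulVec_mulVec, mulVec_diagonal, if_pos h, one_mul] at this
      rw [this]; simp
    · exact mul_le_of_le_one_left (sq_nonneg _) (not_lt.1 h)

theorem normsq_sum_le {α : Type} (s : Finset α) (f : α → 𝕜)
    (h : ∀ a ∈ s, ∀ b ∈ s, f a ≠ 0 → f b ≠ 0 → a = b) :
    ‖∑ a ∈ s, f a‖ ^ 2 ≤ ∑ a ∈ s, ‖f a‖ ^ 2 := by
  by_cases h0 : ∃ a ∈ s, f a ≠ 0
  · obtain ⟨a, ha, h1⟩ := h0
    rw [sum_eq_single_of_mem a ha fun b hb e => by_contra fun h2 => e (h b hb a ha h2 h1)]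
    exact single_le_sum (f := fun a => ‖f a‖ ^ 2) (fun _ _ => sq_nonneg _) ha
  · rw [sum_eq_zero fun a ha => by_contra fun h2 => h0 ⟨a, ha, h2⟩]
    simpa using sum_nonneg fun a _ => sq_nonneg ‖f a‖

/-- No two walks of at most `k` steps from one state end at the same place. -/
structure Free {V : Type} (X : Matrix m m 𝕜) (Y : Matrix m n 𝕜) (k : ℕ) (R : m → ℕ → m → Prop)
    (pos pre : m → V) (pre' : n → V) : Prop where
  zero : ∀ s, R s 0 s
  step : ∀ s i c t, R s i c → X c t ≠ 0 → R s (i + 1) t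
  h1 : ∀ c t, X c t ≠ 0 → pos c = pre t
  h2 : ∀ c b, Y c b ≠ 0 → pos c = pre' b
  uniq : ∀ s i j c c', R s i c → R s j c' → i ≤ k → j ≤ k → pos c = pos c' → i = j ∧ c = c'

variable [DecidableEq m] {V : Type} {X : Matrix m m 𝕜} {Y : Matrix m n 𝕜} {k : ℕ}
  {R : m → ℕ → m → Prop} {pos pre : m → V} {pre' : n → V}

omit [Fintype n] in
theorem Free.reach (F : Free X Y k R pos pre pre') (s : m) (i : ℕ) (c : m) (h : (X ^ i) s c ≠ 0) :
    R s i c := by
  induction i generalizing c with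
  | zero =>
    by_cases e : s = c
    · exact e ▸ F.zero s
    · simp [e] at h
  | succ i ih =>
    rw [pow_succ, mul_apply] at h
    obtain ⟨a, -, ha⟩ := exists_ne_zero_of_sum_ne_zero h
    exact F.step s i a c (ih a (left_ne_zero_of_mul ha)) (right_ne_zero_of_mul ha)

omit [Fintype n] in
theorem Free.pow_le (F : Free X Y k R pos pre pre') (s : m) (i : ℕ) (hi : i ≤ k) (t : m) :
    ‖(X ^ i) s t‖ ^ 2 ≤ (sqm X ^ i) s t := by
  induction i generalizing t with
  | zero => by_cases e : s = t <;> simp [e]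
  | succ i ih =>
    rw [pow_succ X, pow_succ (sqm X), mul_apply, mul_apply]
    refine (normsq_sum_le _ _ fun a _ b _ ha hb => ?_).trans (sum_le_sum fun a _ => ?_)
    · exact (F.uniq s i i a b (F.reach s i a (left_ne_zero_of_mul ha))
        (F.reach s i b (left_ne_zero_of_mul hb)) (by omega) (by omega)
        ((F.h1 _ _ (right_ne_zero_of_mul ha)).trans (F.h1 _ _ (right_ne_zero_of_mul hb)).symm)).2
    · rw [norm_mul, mul_pow]
      exact mul_le_mul_of_nonneg_right (ih (by omega) a) (sq_nonneg _)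

omit [Fintype n] in
theorem Free.sum_le (F : Free X Y k R pos pre pre') (s t : m) :
    ‖(∑ j ∈ range k, X ^ (j + 1)) s t‖ ^ 2 ≤ (∑ j ∈ range k, sqm X ^ (j + 1)) s t := by
  rw [Matrix.sum_apply, Matrix.sum_apply]
  refine (normsq_sum_le _ _ fun a ha b hb h1 h2 => ?_).trans
    (sum_le_sum fun a ha => F.pow_le s _ (mem_range.1 ha) t)
  have := (F.uniq s _ _ t t (F.reach s _ t h1) (F.reach s _ t h2) (mem_range.1 ha)
    (mem_range.1 hb) rfl).1
  omega

omit [Fintype n] in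
theorem Free.sum_le' (F : Free X Y k R pos pre pre') {j : ℕ} (hj : j ≤ k) (s : m) (b : n) :
    ‖(∑ i ∈ range j, X ^ i * Y) s b‖ ^ 2 ≤ (∑ i ∈ range k, sqm X ^ i * sqm Y) s b := by
  have h0 : ∀ i a c, 0 ≤ (sqm X ^ i) a c := fun i =>
    Matrix.pow_apply_nonneg (fun _ _ => sq_nonneg _) i
  simp only [Matrix.sum_apply, mul_apply]
  refine le_trans ?_ (sum_le_sum_of_subset_of_nonneg (range_mono hj) fun i _ _ =>
    sum_nonneg fun c _ => mul_nonneg (h0 i s c) (sq_nonneg _))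
  rw [← sum_product', ← sum_product']
  refine (normsq_sum_le _ _ fun a ha c hc h1 h2 => ?_).trans (sum_le_sum fun a ha => ?_)
  · have e1 := mem_range.1 (mem_product.1 ha).1
    have e2 := mem_range.1 (mem_product.1 hc).1
    exact Prod.ext_iff.2 (F.uniq s _ _ _ _ (F.reach s _ _ (left_ne_zero_of_mul h1))
      (F.reach s _ _ (left_ne_zero_of_mul h2)) (by omega) (by omega)
      ((F.h2 _ _ (right_ne_zero_of_mul h1)).trans (F.h2 _ _ (right_ne_zero_of_mul h2)).symm))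
  · have e1 := mem_range.1 (mem_product.1 ha).1
    rw [norm_mul, mul_pow]
    exact mul_le_mul_of_nonneg_right (F.pow_le s _ (by omega) _) (sq_nonneg _)

section mass

variable {A : Matrix m m ℝ} {B : Matrix m n ℝ} {r : m → ℝ}

theorem mass1 (hA : ∀ s t, 0 ≤ A s t) (h : ∀ s, ∑ t, A s t ≤ 1) (i : ℕ) (s : m) :
    ∑ t, (A ^ i) s t ≤ 1 := by
  induction i generalizing s with
  | zero => simp [one_apply]
  | succ i ih =>
    simp only [pow_succ', mul_apply]
    rw [sum_comm]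
    refine le_trans (sum_le_sum fun c _ => ?_) (h s)
    rw [← mul_sum]
    exact mul_le_of_le_one_right (hA s c) (ih c)

theorem mass2 (hA : ∀ s t, 0 ≤ A s t) (hB : ∀ s b, 0 ≤ B s b)
    (h : ∀ s, ∑ t, A s t + ∑ b, B s b ≤ r s) (hr : ∀ s, r s ≤ 1) (j : ℕ) (s : m) :
    ∑ b, (∑ i ∈ range j, A ^ i * B) s b ≤ r s := by
  induction j generalizing s with
  | zero =>
    simpa using le_trans (add_nonneg (sum_nonneg fun t _ => hA s t) (sum_nonneg fun b _ => hB s b))
      (h s)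
  | succ j ih =>
    have e : ∑ i ∈ range (j + 1), A ^ i * B = A * (∑ i ∈ range j, A ^ i * B) + B := by
      rw [sum_range_succ', Matrix.mul_sum]
      simp [pow_succ', Matrix.mul_assoc]
    rw [e]
    simp only [Matrix.add_apply, sum_add_distrib, mul_apply (M := A)]
    rw [sum_comm]
    refine le_trans (add_le_add_left (sum_le_sum fun c _ => ?_) _) (h s)
    rw [← mul_sum]
    exact mul_le_of_le_one_right (hA s c) ((ih c).trans (hr c))

theorem mass3 (hA : ∀ s t, 0 ≤ A s t) {p q : m → ℝ} (hq : ∀ t, 0 ≤ q t)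
    (h : ∀ t, ∑ s, (p s + q s) * A s t ≤ q t) (j : ℕ) (t : m) :
    ∑ s, p s * (∑ i ∈ range j, A ^ (i + 1)) s t ≤ q t := by
  induction j generalizing t with
  | zero => simpa using hq t
  | succ j ih =>
    have e : ∑ i ∈ range (j + 1), A ^ (i + 1) = (∑ i ∈ range j, A ^ (i + 1)) * A + A := by
      rw [sum_range_succ', Matrix.sum_mul]
      simp [pow_succ]
    rw [e]
    simp only [Matrix.add_apply, mul_add, sum_add_distrib, mul_apply (N := A), mul_sum]
    rw [sum_comm]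
    refine le_trans ?_ (h t)
    simp only [add_mul, sum_add_distrib]
    rw [add_comm]
    refine add_le_add_right (sum_le_sum fun c _ => ?_) _
    simp only [← mul_assoc]
    rw [← sum_mul]
    exact mul_le_mul_of_nonneg_right (ih c) (hA c t)

end mass

end Pool.Agent.MP_5daf37_lc.TL
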