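import Pool.Agent.MP_5daf37_lc.TL.Ports
import Pool.Agent.MP_5daf37_lc.TL.BP

/-!
Acyclic linear networks of large girth.
-/

open Matrix Finset

namespace Pool.Agent.MP_5daf37_lc.TL

open BN

variable {𝕜 : Type} [RCLike 𝕜] {E ι l : Type} [Fintype E] [Fintype ι] [Fintype l]
  [DecidableEq E] [DecidableEq ι]

/-- The local solutions: values on tail halves, head halves, inputs and outputs. -/
def Jm (T : Matrix E E 𝕜) (B : Matrix E ι 𝕜) (C : Matrix ι E 𝕜) (D : Matrix ι ι 𝕜) :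
    Matrix ((E ⊕ E) ⊕ (ι ⊕ ι)) (E ⊕ ι) 𝕜 :=
  fromRows (fromRows (fromCols T B) (fromCols 1 0)) (fromRows (fromCols 0 1) (fromCols C D))

variable {T : Matrix E E 𝕜} {B : Matrix E ι 𝕜} {C : Matrix ι E 𝕜} {D : Matrix ι ι 𝕜}

theorem Jm_mulVec (z : E → 𝕜) (x : ι → 𝕜) : Jm T B C D *ᵥ Sum.elim z x =
    Sum.elim (Sum.elim (T *ᵥ z + B *ᵥ x) z) (Sum.elim x (C *ᵥ z + D *ᵥ x)) := by
  simp only [Jm, fromRows_mulVec, fromCols_mulVec_sumElim, one_mulVec, zero_mulVec, add_zero,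
    zero_add]

theorem En_eq (ω : E ⊕ E → ℝ) (h : E ⊕ E) (z : E → 𝕜) (x : ι → 𝕜) :
    ω h * ‖Sum.elim (T *ᵥ z + B *ᵥ x) z h‖ ^ 2 +
      En (Jm T B C D) (Sum.elim ω 1) (.inl h) (Sum.elim z x) =
      ∑ e, ω (.inl e) * ‖(T *ᵥ z + B *ᵥ x) e‖ ^ 2 + ∑ e, ω (.inr e) * ‖z e‖ ^ 2 + nsq x +
        nsq (C *ᵥ z + D *ᵥ x) := by
  have := add_sum_erase _ (fun t => Sum.elim ω 1 t * ‖(Jm T B C D *ᵥ Sum.elim z x) t‖ ^ 2)
    (mem_univ (.inl h))
  rw [En]
  simp only [Jm_mulVec] at this ⊢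
  simp only [Fintype.sum_sum_type, Sum.elim_inl, Sum.elim_inr, Pi.one_apply, one_mul] at this
  rw [this, nsq, nsq]
  ring

theorem exists_fix {ρ : E → ℕ} (sT : ∀ e e', T e e' ≠ 0 → ρ e' < ρ e)
    (live : ∀ e, ∃ z x, (T *ᵥ z + B *ᵥ x) e = 1) :
    ∃ ω : E ⊕ E → ℝ, (∀ h, 0 ≤ ω h) ∧ (∀ e, ω (.inr e) ≠ 0) ∧ ∀ h,
      (Es (Jm T B C D) (Sum.elim ω 1) (.inl h)).Nonempty ∧
      IsGLB (Es (Jm T B C D) (Sum.elim ω 1) (.inl h)) (ω h.swap) := by
  have h1 : ∀ e, ∃ z x, (T *ᵥ z + B *ᵥ x) e = 1 ∧ ∀ e', z e' ≠ 0 → ρ e' < ρ e := fun e => by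
    obtain ⟨z, x, h⟩ := live e
    refine ⟨fun e' => if T e e' = 0 then 0 else z e', x, ?_, fun e' h => sT e e' fun h' =>
      h (if_pos h')⟩
    rw [← h, Pi.add_apply, Pi.add_apply]
    congr 1
    refine sum_congr rfl fun e' _ => ?_
    by_cases h' : T e e' = 0 <;> simp [h']
  choose z x z1 z2 using h1
  obtain ⟨α, a0, a1⟩ := exists_super (fun e => univ.sup ρ - ρ e) (f := fun e e' => ‖T e' e‖ ^ 2)
    (c := fun e => ∑ i, ‖C i e‖ ^ 2) (fun _ _ => sq_nonneg _)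
    (fun _ => sum_nonneg fun _ _ => sq_nonneg _) fun e e' h => by
      have h1 := sT e' e (by simpa using h)
      have h2 : ρ e' ≤ univ.sup ρ := le_sup (mem_univ e')
      omega
  obtain ⟨β, b0, b1⟩ := exists_super ρ (f := fun e e' => ‖z e e'‖ ^ 2)
    (c := fun e => ∑ e', α e' * ‖(T *ᵥ z e + B *ᵥ x e) e'‖ ^ 2 + nsq (x e) +
      nsq (C *ᵥ z e + D *ᵥ x e)) (fun _ _ => sq_nonneg _)
    (fun _ => add_nonneg (add_nonneg (sum_nonneg fun _ _ => mul_nonneg (a0 _) (sq_nonneg _))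
      (nsq_nonneg _)) (nsq_nonneg _)) fun e e' h => z2 e e' (by simpa using h)
  have h2 : ∀ h : E ⊕ E, ∃ ξ, (Jm T B C D *ᵥ ξ) (.inl h) = 1 ∧
      En (Jm T B C D) (Sum.elim (Sum.elim α β) 1) (.inl h) ξ ≤ Sum.elim α β h.swap := by
    rintro (e | e)
    · refine ⟨Sum.elim (z e) (x e), by rw [Jm_mulVec]; exact z1 e, ?_⟩
      have h3 := En_eq (T := T) (B := B) (C := C) (D := D) (Sum.elim α β) (.inl e) (z e) (x e)
      have h4 := b1 e
      simp only [Sum.elim_inl, Sum.elim_inr, Sum.swap_inl, mul_comm (β _)] at h3 ⊢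
      linarith [mul_nonneg (a0 e) (sq_nonneg ‖(T *ᵥ z e + B *ᵥ x e) e‖)]
    · refine ⟨Sum.elim (Pi.single e 1) 0, by rw [Jm_mulVec]; simp, ?_⟩
      have h3 := En_eq (T := T) (B := B) (C := C) (D := D) (Sum.elim α β) (.inr e)
        (Pi.single e 1) 0
      have h4 := a1 e
      have h5 : ∑ e', β e' * ‖(Pi.single e 1 : E → 𝕜) e'‖ ^ 2 = β e := by
        rw [sum_eq_single e (fun e' _ h => by simp [h]) (by simp)]; simp
      simp only [Sum.elim_inl, Sum.elim_inr, Sum.swap_inr, h5, mul_comm (α _)] at h3 ⊢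
      generalize En (Jm T B C D) _ _ _ = a at h3 ⊢
      simp [nsq] at h3
      linarith
  obtain ⟨ω, w0, w1⟩ := tarski (Jm T B C D) Sum.swap_swap (b := Sum.elim α β)
    (by rintro (e | e); exacts [a0 e, b0 e]) h2
  have h3 : ∀ h, (Es (Jm T B C D) (Sum.elim ω 1) (.inl h)).Nonempty := fun h =>
    let ⟨ξ, e, _⟩ := h2 h
    ⟨_, ξ, e, rfl⟩
  refine ⟨ω, w0, fun e => ?_, fun h => ⟨h3 h, w1 h⟩⟩
  induction hn : ρ e using Nat.strong_induction_on generalizing e with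
  | _ n ih =>
    let w : E ⊕ ι → ℝ := Sum.elim (fun e => ω (.inr e)) 1
    let u : E ⊕ ι → 𝕜 := fun p => fromCols T B e p * (w p : 𝕜)⁻¹
    have h4 : ∀ p, 0 ≤ w p := by rintro (p | p); exacts [w0 _, zero_le_one]
    have h5 : ∀ p, u p * w p = fromCols T B e p := by
      rintro (p | p)
      · by_cases h : T e p = 0
        · simp [u, h]
        · exact inv_mul_cancel_right₀ (RCLike.ofReal_ne_zero.2 (ih _ (hn ▸ sT e p h) p rfl)) _
      · simp [u, w]
    have h6 : ∀ a ∈ Es (Jm T B C D) (Sum.elim ω 1) (.inl (.inl e)),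
        1 ≤ (∑ p, w p * ‖u p‖ ^ 2) * a := by
      rintro _ ⟨ξ, e1, rfl⟩
      obtain ⟨y, v, rfl⟩ : ∃ y v, ξ = Sum.elim y v := ⟨_, _, (Sum.elim_comp_inl_inr ξ).symm⟩
      have h7 := wcs univ h4 u (Sum.elim y v)
      simp only [h5] at h7
      rw [show ∑ p, fromCols T B e p * Sum.elim y v p = 1 from e1, norm_one, one_pow] at h7
      refine h7.trans (mul_le_mul_of_nonneg_left ?_
        (sum_nonneg fun p _ => mul_nonneg (h4 p) (sq_nonneg _)))
      have h8 := En_eq (T := T) (B := B) (C := C) (D := D) ω (.inl e) y v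
      have h9 := single_le_sum (f := fun e => ω (.inl e) * ‖(T *ᵥ y + B *ᵥ v) e‖ ^ 2)
        (fun _ _ => mul_nonneg (w0 _) (sq_nonneg _)) (mem_univ e)
      have h10 := nsq_nonneg (C *ᵥ y + D *ᵥ v)
      simp only [Fintype.sum_sum_type, w, Sum.elim_inl, Sum.elim_inr, Pi.one_apply, one_mul]
        at h8 ⊢
      rw [nsq] at h8
      linarith
    obtain ⟨a, ha⟩ := h3 (.inl e)
    have h7 : 0 < ∑ p, w p * ‖u p‖ ^ 2 :=
      (sum_nonneg fun p _ => mul_nonneg (h4 p) (sq_nonneg _)).lt_of_ne fun h => by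
        have := h6 a ha
        rw [← h, zero_mul] at this
        exact absurd this (by norm_num)
    exact ((inv_pos.2 h7).trans_le ((w1 (.inl e)).2 fun a ha =>
      (inv_le_iff_one_le_mul₀' h7).2 (h6 a ha))).ne'

theorem net {G : SimpleGraph ℕ} {tl hd ρ : E → ℕ} {li lo : ι → ℕ}
    (sT : ∀ e e', T e e' ≠ 0 → tl e = hd e' ∧ ρ e' < ρ e) (sB : ∀ e j, B e j ≠ 0 → tl e = li j)
    (sC : ∀ i e, C i e ≠ 0 → lo i = hd e) (sD : ∀ i j, D i j ≠ 0 → lo i = li j)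
    (adj : ∀ e, G.Adj (tl e) (hd e)) (uq : ∀ e e', s(tl e, hd e) = s(tl e', hd e') → e = e')
    {k d : ℕ} (hk : ((2 * k + 2 : ℕ) : ℕ∞) < G.egirth) (d2 : 2 ≤ d)
    (hd' : ∀ v, (univ.filter fun e => tl e = v).card + (univ.filter fun e => hd e = v).card +
      ((univ.filter fun j => li j = v).card + (univ.filter fun i => lo i = v).card) ≤ d)
    {U : Matrix ι ι 𝕜} (hU : Uᴴ * U = 1) {μ : ℝ} (μ0 : 0 ≤ μ) (hμ : ∀ i j, ‖U i j‖ ≤ μ)
    (hf : 64 * (d : ℝ) ^ (2 * k) * μ ≤ 1) {Z : Matrix E ι 𝕜} {A : Matrix l ι 𝕜}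
    (hA : 32 * A.rank ≤ Fintype.card ι) (live : ∀ e, ∃ x, A *ᵥ x = 0 ∧ (Z *ᵥ x) e ≠ 0)
    (hx : ∀ x, A *ᵥ x = 0 → Z *ᵥ x = T *ᵥ Z *ᵥ x + B *ᵥ x ∧ U *ᵥ x = C *ᵥ Z *ᵥ x + D *ᵥ x) :
    k * Fintype.card ι ≤ 64 * Fintype.card E := by
  obtain ⟨ω, w0, w1, w2⟩ := exists_fix (C := C) (D := D) (B := B) (fun e e' h => (sT e e' h).2)
    fun e => by
      obtain ⟨x, x1, x2⟩ := live e
      refine ⟨((Z *ᵥ x) e)⁻¹ • Z *ᵥ x, ((Z *ᵥ x) e)⁻¹ • x, ?_⟩
      rw [mulVec_smul, mulVec_smul, ← smul_add, ← (hx x x1).1, Pi.smul_apply, smul_eq_mul,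
        inv_mul_cancel₀ x2]
  obtain ⟨K, κ, k1, k2, k3, k4, k5, k6, k7⟩ := exists_kernel (Jm T B C D) (ω := Sum.elim ω 1)
    (by rintro (t | t); exacts [w0 t, zero_le_one])
    (fun ξ h => by
      obtain ⟨y, v, rfl⟩ : ∃ y v, ξ = Sum.elim y v := ⟨_, _, (Sum.elim_comp_inl_inr ξ).symm⟩
      rw [Jm_mulVec] at h
      funext p
      rcases p with p | p
      exacts [h (.inl (.inr p)) (w1 p), h (.inr (.inl p)) one_ne_zero])
    (loc := Sum.elim (Sum.elim tl hd) (Sum.elim li lo)) (loc' := Sum.elim hd li) (by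
      rintro ((t | t) | (t | t)) (p | p) h
      · exact (sT t p h).1
      · exact sB t p h
      · exact congrArg hd (by_contra fun e => h (one_apply_ne e))
      · exact absurd rfl h
      · exact absurd rfl h
      · exact congrArg li (by_contra fun e => h (one_apply_ne e))
      · exact sC t p h
      · exact sD t p h)
  have k8 : ∀ h, κ (.inl h) * (ω h + ω h.swap) = 1 := fun h => k7 _ _ (w2 h).1 (w2 h).2
  have hU' : U * Uᴴ = 1 := mul_eq_one_comm.1 hU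
  have eT : fromRows (1 : Matrix ι ι 𝕜) U * (fromRows 1 U)ᴴ = fromBlocks 1 Uᴴ U 1 := by
    simp only [conjTranspose_fromRows_eq_fromCols_conjTranspose, fromRows_mul_fromCols, hU',
      conjTranspose_one, Matrix.mul_one, Matrix.one_mul]
  have h := ports (G := G) (σ := Sum.swap) (loc := Sum.elim (Sum.elim tl hd) (Sum.elim li lo))
    ⟨by rintro ((t | t) | t) <;> rfl, by rintro (t | t) h; exacts [absurd rfl h, rfl], by
      rintro ((t | t) | t) h
      exacts [adj t, (adj t).symm, absurd h (by simp)], by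
      rintro ((s | s) | s) ((t | t) | t) h h' e e' <;> simp at h h' e e' ⊢
      · exact uq s t (by rw [e, e'])
      · obtain rfl := uq s t (by rw [e, e', Sym2.eq_swap])
        exact (adj s).ne e
      · obtain rfl := uq s t (by rw [e, e', Sym2.eq_swap])
        exact (adj s).ne e'
      · exact uq s t (by rw [e, e'])⟩ hk
    (fun v => le_of_eq_of_le (by simp only [card_filter, Fintype.sum_sum_type]; rfl) (hd' v)) d2
    w0 k1 k2 k3 k6 k8 (by
      have h1 : ∀ e, ω (.inl e) * κ (.inl (.inl e)) + ω (.inr e) * κ (.inl (.inr e)) = 1 :=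
        fun e => by
          have e1 := k8 (.inl e)
          have e2 := k8 (.inr e)
          rw [Sum.swap_inl] at e1
          rw [Sum.swap_inr, add_comm] at e2
          rw [mul_right_cancel₀ (right_ne_zero_of_mul_eq_one e2) (e2.trans e1.symm)]
          linarith
      rw [Fintype.sum_sum_type, Fintype.sum_sum_type, ← sum_add_distrib] at k4
      simp only [Sum.elim_inl, Sum.elim_inr, h1, Pi.one_apply, one_mul] at k4
      simp at k4
      rw [Fintype.sum_sum_type]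
      exact k4.le)
    μ0 hf (T := fromRows 1 U) (Z := fromRows Z Z) (A := A) (by simp [two_mul])
    (fun x => by rw [fromRows_mulVec, nsq_elim, one_mulVec, nsq_unitary hU, two_mul])
    (by rw [eT]; rintro (i | i) <;> simp)
    (by rw [eT]; rintro (i | i) (j | j) h <;> simp at h <;> simp [μ0, hμ, h])
    (fun y => by
      obtain ⟨y, v, rfl⟩ : ∃ a b, y = Sum.elim a b := ⟨_, _, (Sum.elim_comp_inl_inr y).symm⟩
      rw [conjTranspose_fromRows_eq_fromCols_conjTranspose, fromCols_mulVec_sumElim, nsq_elim,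
        conjTranspose_one, one_mulVec]
      have := nsq_add_le y (Uᴴ *ᵥ v) one_pos (mul_one 1)
      rw [nsq_unitary (A := Uᴴ) (by simpa using hU')] at this
      linarith)
    hA (by rintro (e | e) j <;> rfl) fun x h s => by
      have := k5 (Sum.elim (Z *ᵥ x) x) s
      rw [Jm_mulVec, ← (hx x h).1, ← (hx x h).2] at this
      simpa only [fromRows_mulVec, one_mulVec] using this
  rw [Fintype.card_sum] at h
  have h' : (k : ℝ) * Fintype.card ι ≤ 64 * Fintype.card E := by push_cast at h; linarith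
  exact_mod_cast h'

end Pool.Agent.MP_5daf37_lc.TL
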