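import Pool.Agent.MP_5daf37_lc.TL.Scat
import Pool.Agent.MP_5daf37_lc.TL.Graph

/-!
The scattering matrix of a kernel at a fixed point of the messages.
-/

open Matrix Finset

namespace Pool.Agent.MP_5daf37_lc.TL

open BN

variable {𝕜 : Type} [RCLike 𝕜] {W L ι l : Type} [Fintype W] [Fintype L] [Fintype ι] [Fintype l]

theorem row_count {a b H : Type} [Fintype b] [Fintype H] {X : Matrix a b 𝕜} {loc : H → ℕ} {D : ℕ}
    (hD : ∀ v, (univ.filter fun t => loc t = v).card ≤ D) (h1 : ∀ i j, ‖X i j‖ ≤ 1) {f : b → H}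
    (hf : Function.Injective f) (g : a → ℕ) (h2 : ∀ i j, X i j ≠ 0 → loc (f j) = g i) :
    Row X D := fun i => by
  refine (sum_le_sum (g := fun j => if loc (f j) = g i then (1 : ℝ) else 0) fun j _ => ?_).trans ?_
  · split_ifs with e
    · exact h1 i j
    · rw [not_not.1 (mt (h2 i j) e), norm_zero]
  · rw [sum_boole, Nat.cast_le]
    exact (card_le_card_of_injOn f (fun j hj => by simpa using hj) hf.injOn).trans (hD (g i))

omit [Fintype L] in
theorem sum_ite_add {β : Type} [AddCommMonoid β] [DecidableEq W] [DecidableEq L] (g : W)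
    (f : W → β) :
    ∑ h, (if (Sum.inl g : W ⊕ L) = .inl h then 0 else f h) + f g = ∑ h, f h := by
  rw [← add_sum_erase _ f (mem_univ g), ← add_sum_erase _ _ (mem_univ g), if_pos rfl, zero_add,
    add_comm]
  congr 1
  exact sum_congr rfl fun h hh => if_neg fun e => ne_of_mem_erase hh (Sum.inl.inj e).symm

theorem ports [DecidableEq W] [DecidableEq L] [DecidableEq ι] {G : SimpleGraph ℕ} {σ : W → W}
    {loc : W ⊕ L → ℕ} (P : Ports G (fun t => t.isLeft = true) (Sum.map σ id) loc) {k D : ℕ}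
    (hk : ((2 * k + 2 : ℕ) : ℕ∞) < G.egirth)
    (hD : ∀ v, (univ.filter fun t => loc t = v).card ≤ D) (D2 : 2 ≤ D)
    {ω : W → ℝ} (w0 : ∀ h, 0 ≤ ω h) {K : Matrix (W ⊕ L) (W ⊕ L) 𝕜} {κ : W ⊕ L → ℝ}
    (k1 : ∀ s t, ‖K s t‖ = ‖K t s‖) (k2 : ∀ s, K s s = κ s)
    (k3 : ∀ s, ∑ t, Sum.elim ω 1 t * ‖K s t‖ ^ 2 = κ s) (k4 : ∀ s t, K s t ≠ 0 → loc s = loc t)
    (k5 : ∀ h, κ (.inl h) * (ω h + ω (σ h)) = 1) (k6 : ∑ a, κ (.inr a) ≤ Fintype.card ι)
    {μ : ℝ} (hμ : 0 ≤ μ) (hf : 64 * (D : ℝ) ^ (2 * k) * μ ≤ 1)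
    {T : Matrix L ι 𝕜} {Z : Matrix W ι 𝕜} {A : Matrix l ι 𝕜}
    (hL : Fintype.card L = 2 * Fintype.card ι)
    (t0 : ∀ x, nsq (T *ᵥ x) = 2 * nsq x) (t1 : ∀ a, (T * Tᴴ) a a = 0 ∨ (T * Tᴴ) a a = 1)
    (t2 : ∀ a b, a ≠ b → ‖(T * Tᴴ) a b‖ ≤ μ) (t3 : ∀ y, nsq (Tᴴ *ᵥ y) ≤ 2 * nsq y)
    (hA : 32 * A.rank ≤ Fintype.card ι) (hZ : ∀ h j, Z (σ h) j = Z h j)
    (hx : ∀ x, A *ᵥ x = 0 → ∀ s, Sum.elim (Z *ᵥ x) (T *ᵥ x) s =
      ∑ t, K s t * ((Sum.elim ω 1 t : ℝ) : 𝕜) * Sum.elim (Z *ᵥ x) (T *ᵥ x) t) :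
    (k : ℝ) * Fintype.card ι ≤ 32 * Fintype.card W := by
  have hσ : Function.Involutive σ := fun h => Sum.inl.inj (P.inv (.inl h))
  have hσ' : Function.Injective (Sum.map σ id : W ⊕ L → W ⊕ L) :=
    Function.Involutive.injective P.inv
  have re : ∀ {β : Type} [AddCommMonoid β] (f : W → β), ∑ h, f (σ h) = ∑ h, f h :=
    fun f => Equiv.sum_comp hσ.toPerm f
  have c0 : ∀ s, 0 ≤ κ s := fun s => k3 s ▸ sum_nonneg fun t _ => mul_nonneg
    (by rcases t with t | t; exacts [w0 t, zero_le_one]) (sq_nonneg _)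
  have c1 : ∀ h, κ (.inl h) ≠ 0 := fun h => left_ne_zero_of_mul_eq_one (k5 h)
  have c2 : ∀ h, κ (.inl (σ h)) = κ (.inl h) := fun h => by
    have := k5 (σ h)
    rw [hσ, add_comm] at this
    exact mul_right_cancel₀ (right_ne_zero_of_mul_eq_one this) (this.trans (k5 h).symm)
  have c3 : ∀ s, ‖K s s‖ = κ s := fun s => by rw [k2, RCLike.norm_ofReal, abs_of_nonneg (c0 s)]
  have c4 : ∀ g, ∑ h, (if (Sum.inl g : W ⊕ L) = .inl h then 0 else ω h * ‖K (.inl g) (.inl h)‖ ^ 2)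
      + ∑ b, ‖K (.inl g) (.inr b)‖ ^ 2 = κ (.inl g) ^ 2 * ω (σ g) := fun g => by
    have h1 := k3 (.inl g)
    have h2 := sum_ite_add (L := L) g fun h => ω h * ‖K (.inl g) (.inl h)‖ ^ 2
    simp only [Fintype.sum_sum_type, Sum.elim_inl, Sum.elim_inr, Pi.one_apply, one_mul] at h1
    rw [c3] at h2
    linear_combination h1 + h2 - κ (.inl g) * k5 g
  let cf : W ⊕ L → ℝ := Sum.elim (fun h => (κ (.inl h) * √(ω (σ h)))⁻¹) 1
  have c5 : ∀ g, cf (.inl g) ^ 2 * (κ (.inl g) ^ 2 * ω (σ g)) ≤ 1 := fun g => by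
    show (κ (.inl g) * √(ω (σ g)))⁻¹ ^ 2 * _ ≤ 1
    rw [inv_pow, mul_pow, Real.sq_sqrt (w0 _)]
    exact inv_mul_le_one_of_le₀ le_rfl (mul_nonneg (sq_nonneg _) (w0 _))
  let X : Matrix (W ⊕ L) (W ⊕ L) 𝕜 := fromCols (of fun s h => if s = .inl (σ h) then 0 else
    (cf s : 𝕜) * K s (.inl (σ h)) * (√(ω (σ h)) : ℝ)) 0
  let Y : Matrix (W ⊕ L) L 𝕜 := of fun s b => (cf s : 𝕜) * K s (.inr b)
  have x1 : ∀ s h, ‖X s (.inl h)‖ ^ 2 = cf s ^ 2 *
      if s = .inl (σ h) then 0 else ω (σ h) * ‖K s (.inl (σ h))‖ ^ 2 := fun s h => by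
    show ‖(if s = .inl (σ h) then 0 else (cf s : 𝕜) * K s (.inl (σ h)) * (√(ω (σ h)) : ℝ))‖ ^ 2 = _
    split_ifs
    · simp
    · rw [norm_mul, norm_mul, RCLike.norm_ofReal, RCLike.norm_ofReal, mul_pow, mul_pow, sq_abs,
        sq_abs, Real.sq_sqrt (w0 _)]
      ring
  have x2 : ∀ s b, X s (.inr b) = 0 := fun _ _ => rfl
  have x3 : ∀ s b, ‖Y s b‖ ^ 2 = cf s ^ 2 * ‖K s (.inr b)‖ ^ 2 := fun s b => by
    show ‖(cf s : 𝕜) * K s (.inr b)‖ ^ 2 = _
    rw [norm_mul, RCLike.norm_ofReal, mul_pow, sq_abs]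
  have x4 : ∀ s t, X s t ≠ 0 → t.isLeft = true ∧ loc s = loc (Sum.map σ id t) ∧
      s ≠ Sum.map σ id t := by
    rintro s (h | b) e
    · have e1 : s ≠ .inl (σ h) := fun e1 => e (if_pos e1)
      refine ⟨rfl, k4 _ _ fun e2 => e ((if_neg e1).trans ?_), e1⟩
      rw [show K s (.inl (σ h)) = 0 from e2, mul_zero, zero_mul]
    · exact absurd rfl e
  have x5 : ∀ s b, Y s b ≠ 0 → loc s = loc (.inr b) := fun s b e =>
    k4 _ _ (right_ne_zero_of_mul e)
  let r : W ⊕ L → ℝ := Sum.elim 1 fun a => κ (.inr a)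
  have r1 : ∀ s, ∑ t, ‖X s t‖ ^ 2 + ∑ b, ‖Y s b‖ ^ 2 ≤ r s := fun s => by
    simp only [Fintype.sum_sum_type, x1, x2, x3, norm_zero, ne_eq, OfNat.ofNat_ne_zero,
      not_false_eq_true, zero_pow, sum_const_zero, add_zero, ← mul_sum, ← mul_add]
    rw [re fun h => if s = .inl h then 0 else ω h * ‖K s (.inl h)‖ ^ 2]
    rcases s with g | a
    · rw [c4]; exact c5 g
    · simpa [Fintype.sum_sum_type, cf, r] using (k3 (.inr a)).le
  have r2 : ∀ s, r s ≤ 1 := by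
    rintro (g | a)
    · exact le_rfl
    · have h1 := single_le_sum (f := fun t => Sum.elim ω 1 t * ‖K (.inr a) t‖ ^ 2)
        (fun t _ => mul_nonneg (by rcases t with t | t; exacts [w0 t, zero_le_one]) (sq_nonneg _))
        (mem_univ (.inr a))
      rw [k3, c3, Sum.elim_inr, Pi.one_apply, one_mul] at h1
      show κ (.inr a) ≤ 1
      nlinarith [c0 (.inr a)]
  have n1 : ∀ s t, ‖X s t‖ ≤ 1 := fun s t => (sq_le_one_iff₀ (norm_nonneg _)).1
    ((single_le_sum (f := fun t => ‖X s t‖ ^ 2) (fun _ _ => sq_nonneg _) (mem_univ t)).trans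
      ((le_add_of_nonneg_right (sum_nonneg fun _ _ => sq_nonneg _)).trans ((r1 s).trans (r2 s))))
  have n2 : ∀ s t, ‖Y s t‖ ≤ 1 := fun s t => (sq_le_one_iff₀ (norm_nonneg _)).1
    ((single_le_sum (f := fun t => ‖Y s t‖ ^ 2) (fun _ _ => sq_nonneg _) (mem_univ t)).trans
      ((le_add_of_nonneg_left (sum_nonneg fun _ _ => sq_nonneg _)).trans ((r1 s).trans (r2 s))))
  refine scat (X := X) (Y := Y) (R := Reach (fun t => t.isLeft = true) (Sum.map σ id) loc)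
    (pos := loc) (pre := fun t => loc (Sum.map σ id t)) (pre' := fun b => loc (.inr b))
    ⟨fun s => .zero, fun s i c t h e => h.step (x4 c t e).1 (x4 c t e).2.1 (x4 c t e).2.2,
      fun c t e => (x4 c t e).2.1, x5, fun s i j c c' h h' hi hj e => P.unique hk h h' hi hj e⟩
    x2 r1 r2 k6 (π := fun h => κ (.inl h) ^ 2 * ω h * ω (σ h))
    (fun h => mul_nonneg (mul_nonneg (sq_nonneg _) (w0 _)) (w0 _)) (fun h => ?_) (fun t => ?_)
    (D := D) (by exact_mod_cast D2)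
    (row_count hD n1 hσ' loc fun s t e => (x4 s t e).2.1.symm)
    (row_count hD (fun t s => by simpa using n1 s t) Function.injective_id
      (fun t => loc (Sum.map σ id t)) fun t s e => (x4 s t (star_ne_zero.1 e)).2.1)
    (row_count hD n2 Sum.inr_injective loc fun s b e => (x5 s b e).symm)
    (row_count hD (fun t s => by simpa using n2 s t) Function.injective_id
      (fun b => loc (.inr b)) fun b s e => x5 s b (star_ne_zero.1 e))
    hμ hf (Z := of fun h j => ((√(ω (σ h)) : ℝ) : 𝕜) * Z h j) hL t0 t1 t2 t3 hA fun x h => ?_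
  · have h1 := congrArg (· ^ 2) (k5 h)
    nlinarith [mul_nonneg (sq_nonneg (κ (.inl h))) (sq_nonneg (ω h - ω (σ h)))]
  · have h1 := c4 (σ t)
    rw [hσ, c2] at h1
    rw [← h1, add_mul, sum_mul, sum_mul]
    refine add_le_add (sum_le_sum fun h _ => ?_) (sum_le_sum fun a _ => le_of_eq ?_)
    · rw [x1]
      by_cases e : h = σ t
      · simp [e]
      · rw [if_neg fun e' => e (Sum.inl.inj e'), if_neg fun e' => e (Sum.inl.inj e').symm,
          k1 (.inl h)]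
        have h2 := mul_le_mul_of_nonneg_right (c5 h) (mul_nonneg (w0 h)
          (mul_nonneg (w0 (σ t)) (sq_nonneg ‖K (.inl (σ t)) (.inl h)‖)))
        exact le_of_eq_of_le (by ring) (h2.trans_eq (by ring))
    · rw [x1, if_neg (by simp), k1 (.inr a)]
      simp [cf, mul_comm]
  · have h1 := hx x h
    have h2 : ∀ g, (of (fun h j => ((√(ω (σ h)) : ℝ) : 𝕜) * Z h j) *ᵥ x) g =
        ((√(ω (σ g)) : ℝ) : 𝕜) * (Z *ᵥ x) g := fun g => by
      simp [mulVec, dotProduct, mul_sum, mul_assoc]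
    have h3 : ∀ g, (Z *ᵥ x) (σ g) = (Z *ᵥ x) g := fun g => by simp [mulVec, dotProduct, hZ]
    have h2' := funext h2
    rw [h2']
    generalize Z *ᵥ x = z, T *ᵥ x = y at h1 h3 ⊢
    have h4 : ∀ s, (X *ᵥ Sum.elim (fun g => ((√(ω (σ g)) : ℝ) : 𝕜) * z g) y + Y *ᵥ y) s =
        (cf s : 𝕜) * (∑ h, (if s = .inl h then 0 else K s (.inl h) * (ω h : 𝕜) * z h) +
          ∑ b, K s (.inr b) * y b) := fun s => by
      rw [← re fun h => if s = .inl h then 0 else K s (.inl h) * (ω h : 𝕜) * z h, mul_add, mul_sum,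
        mul_sum, Pi.add_apply, fromCols_mulVec_sumElim, zero_mulVec, add_zero]
      congr 1
      · refine sum_congr rfl fun h _ => ?_
        show (if s = .inl (σ h) then 0 else (cf s : 𝕜) * K s (.inl (σ h)) * (√(ω (σ h)) : ℝ)) *
          (((√(ω (σ h)) : ℝ) : 𝕜) * z h) = _
        split_ifs
        · simp
        · rw [h3, mul_assoc, ← mul_assoc ((√(ω (σ h)) : ℝ) : 𝕜), ← RCLike.ofReal_mul,
            Real.mul_self_sqrt (w0 _)]
          ring
      · exact sum_congr rfl fun b _ => mul_assoc _ _ _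
    funext s
    rw [h4]
    have h5 := h1 s
    simp only [Fintype.sum_sum_type, Sum.elim_inl, Sum.elim_inr, Pi.one_apply, RCLike.ofReal_one,
      mul_one] at h5
    rcases s with g | a
    · have h6 := sum_ite_add (L := L) g fun h => K (.inl g) (.inl h) * (ω h : 𝕜) * z h
      have h7 := congrArg (RCLike.ofReal (K := 𝕜)) (k5 g)
      have h8 : √(ω (σ g)) = cf (.inl g) * (κ (.inl g) * ω (σ g)) := by
        show _ = (κ (.inl g) * √(ω (σ g)))⁻¹ * _
        rw [mul_inv, mul_mul_mul_comm, inv_mul_cancel₀ (c1 g), one_mul, inv_mul_eq_div,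
          Real.div_sqrt]
      rw [k2] at h6
      rw [Sum.elim_inl] at h5 ⊢
      push_cast at h7
      rw [h8]
      push_cast
      linear_combination (cf (.inl g) : 𝕜) * (h5 - h6 + z g * h7)
    · simpa [cf] using h5

end Pool.Agent.MP_5daf37_lc.TL
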