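import Pool.Agent.MP_5daf37_lc.TL.Mass

/-!
A scattering matrix without interference cannot carry a flat unitary matrix far.
-/

open Matrix Finset

namespace Pool.Agent.MP_5daf37_lc.TL

open BN

variable {𝕜 : Type} [RCLike 𝕜] {W L ι l : Type} [Fintype W] [Fintype L] [Fintype ι] [Fintype l]

theorem Row.sum {α m : Type} {s : Finset α} {f : α → Matrix m l 𝕜} {c : α → ℝ}
    (h : ∀ a ∈ s, Row (f a) (c a)) : Row (∑ a ∈ s, f a) (∑ a ∈ s, c a) := fun i => by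
  simp only [Matrix.sum_apply]
  refine (sum_le_sum fun j _ => norm_sum_le s fun a => f a i j).trans ?_
  rw [sum_comm]
  exact sum_le_sum fun a ha => h a ha i

theorem geom_le {D : ℝ} (hD : 2 ≤ D) (j : ℕ) : ∑ i ∈ range j, D ^ i * D ≤ 2 * D ^ j := by
  induction j with
  | zero => simp
  | succ j ih =>
    rw [sum_range_succ, pow_succ]
    nlinarith [pow_pos (by linarith : 0 < D) j]

theorem row_avg {m : Type} {k : ℕ} (hk : 0 < k) {f : ℕ → Matrix m l 𝕜} {c : ℝ}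
    (h : ∀ j < k, Row (f j) c) : Row ((((k : ℝ)⁻¹ : ℝ) : 𝕜) • ∑ j ∈ range k, f j) c := by
  have k0 : (0 : ℝ) < k := by exact_mod_cast hk
  refine ((Row.sum (c := fun _ => c) fun j hj => h j (mem_range.1 hj)).smul _).mono ?_
  rw [sum_const, card_range, nsmul_eq_mul, abs_of_pos (inv_pos.2 k0), ← mul_assoc,
    inv_mul_cancel₀ k0.ne', one_mul]

omit [Fintype l] in
theorem sq_avg {m : Type} {k : ℕ} (hk : 0 < k) {f : ℕ → Matrix m l 𝕜} {c : ℝ} (a : m) (b : l)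
    (h : ∀ j < k, ‖f j a b‖ ^ 2 ≤ c) :
    ‖((((k : ℝ)⁻¹ : ℝ) : 𝕜) • ∑ j ∈ range k, f j) a b‖ ^ 2 ≤ c := by
  have k0 : (0 : ℝ) < k := by exact_mod_cast hk
  have c0 : 0 ≤ c := (sq_nonneg _).trans (h 0 hk)
  rw [← Real.le_sqrt (norm_nonneg _) c0, Matrix.smul_apply, smul_eq_mul, norm_mul,
    RCLike.norm_ofReal, abs_of_pos (inv_pos.2 k0), inv_mul_le_iff₀ k0, Matrix.sum_apply]
  refine (norm_sum_le _ _).trans ((sum_le_sum fun j hj =>
    (Real.le_sqrt (norm_nonneg _) c0).2 (h j (mem_range.1 hj))).trans ?_)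
  simp

theorem unroll {m : Type} [Fintype m] [DecidableEq m] {X : Matrix m m 𝕜} {Y : Matrix m l 𝕜}
    {w : m → 𝕜} {y : l → 𝕜} (h : w = X *ᵥ w + Y *ᵥ y) (j : ℕ) :
    w = (X ^ j) *ᵥ w + (∑ i ∈ range j, X ^ i * Y) *ᵥ y := by
  induction j with
  | zero => simp
  | succ j ih =>
    rw [sum_range_succ, add_mulVec, pow_succ, ← mulVec_mulVec, ← mulVec_mulVec, add_left_comm,
      ← mulVec_add, ← h, add_comm]
    exact ih

theorem unroll_avg {m : Type} [Fintype m] [DecidableEq m] {X : Matrix m m 𝕜} {Y : Matrix m l 𝕜}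
    {w : m → 𝕜} {y : l → 𝕜} (h : w = X *ᵥ w + Y *ᵥ y) {k : ℕ} (hk : 0 < k) :
    w = ((((k : ℝ)⁻¹ : ℝ) : 𝕜) • ∑ j ∈ range k, X ^ (j + 1)) *ᵥ w +
      ((((k : ℝ)⁻¹ : ℝ) : 𝕜) • ∑ j ∈ range k, ∑ i ∈ range (j + 1), X ^ i * Y) *ᵥ y := by
  have k0 : (k : 𝕜) ≠ 0 := by exact_mod_cast hk.ne'
  rw [smul_mulVec, smul_mulVec, ← smul_add, sum_mulVec, sum_mulVec, ← sum_add_distrib,
    sum_congr rfl fun j _ => (unroll h (j + 1)).symm, sum_const, card_range,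
    ← Nat.cast_smul_eq_nsmul 𝕜, smul_smul]
  simp [inv_mul_cancel₀ k0]

/-- The last step: two nearly local descriptions of the solutions are incompatible with flatness. -/
theorem finish [DecidableEq W] [DecidableEq L] [DecidableEq ι] {Am : Matrix W W 𝕜}
    {As : Matrix L W 𝕜} {Lm : Matrix W L 𝕜} {Ls : Matrix L L 𝕜} {T : Matrix L ι 𝕜}
    {Z : Matrix W ι 𝕜} {A : Matrix l ι 𝕜} {k N c μ : ℝ} (hk : 0 < k) (hμ : 0 ≤ μ)
    (h1 : k * hs Am ≤ N) (h2 : 4 * k ^ 2 * hs As ≤ N) (h3 : hs Lm ≤ N)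
    (h4 : hs Ls ≤ Fintype.card ι) (h5 : Row (Lsᴴ * Ls) c) (h6 : 16 * (c * μ) ≤ 1)
    (hL : Fintype.card L = 2 * Fintype.card ι)
    (t0 : ∀ x, nsq (T *ᵥ x) = 2 * nsq x) (t1 : ∀ a, (T * Tᴴ) a a = 0 ∨ (T * Tᴴ) a a = 1)
    (t2 : ∀ a b, a ≠ b → ‖(T * Tᴴ) a b‖ ≤ μ) (t3 : ∀ y, nsq (Tᴴ *ᵥ y) ≤ 2 * nsq y)
    (hA : 32 * A.rank ≤ Fintype.card ι)
    (hx : ∀ x, A *ᵥ x = 0 → Z *ᵥ x = Am *ᵥ Z *ᵥ x + Lm *ᵥ T *ᵥ x ∧
      T *ᵥ x = As *ᵥ Z *ᵥ x + Ls *ᵥ T *ᵥ x) : k * Fintype.card ι ≤ 32 * N := by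
  obtain ⟨S, s1, s2⟩ := cut (fromRows (((2 : ℝ) : 𝕜) • Am) (((√(10 * k) : ℝ) : 𝕜) • As))
  rw [hs_rows, hs_smul, hs_smul, Real.sq_sqrt (by positivity)] at s1
  have e1 := le_trace (fromRows (((√(5 / 4) : ℝ) : 𝕜) • (Ls * T)) (((√(2 / k) : ℝ) : 𝕜) • (Lm * T)))
    A (S * Z) zero_le_two fun x x1 x2 => by
      obtain ⟨x3, x4⟩ := hx x x1
      have x5 := s2 (Z *ᵥ x) (by rwa [mulVec_mulVec])
      rw [fromRows_mulVec, nsq_elim, smul_mulVec, smul_mulVec, nsq_smul, nsq_smul,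
        Real.sq_sqrt (by positivity)] at x5 ⊢
      rw [Real.sq_sqrt (by positivity), ← mulVec_mulVec, ← mulVec_mulVec]
      have x6 := nsq_add_le (Am *ᵥ Z *ᵥ x) (Lm *ᵥ T *ᵥ x) one_pos (mul_one 1)
      have x7 := nsq_add_le (As *ᵥ Z *ᵥ x) (Ls *ᵥ T *ᵥ x) (a := 4) (b := 1 / 4) (by norm_num)
        (by norm_num)
      rw [← x3] at x6
      rw [← x4, t0] at x7
      have x8 := nsq_nonneg (As *ᵥ Z *ᵥ x)
      have x9 := nsq_nonneg (Am *ᵥ Z *ᵥ x)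
      have x10 : 0 ≤ 10 * k * nsq (As *ᵥ Z *ᵥ x) := by positivity
      have x11 : 5 * nsq (As *ᵥ Z *ᵥ x) ≤ 2 / k * nsq (Lm *ᵥ T *ᵥ x) := by
        rw [div_mul_eq_mul_div, le_div_iff₀ hk]; linarith
      linarith
  rw [hs_eq, hs_rows, hs_smul, hs_smul, Real.sq_sqrt (by positivity),
    Real.sq_sqrt (by positivity)] at e1
  have e2 := trace_mul_le h5 hμ t1 t2
  rw [← Matrix.mul_assoc, trace_mul_comm, ← Matrix.mul_assoc, ← Matrix.mul_assoc,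
    ← conjTranspose_mul, Matrix.mul_assoc, hs_eq, hs_eq, hL] at e2
  have e3 := hs_mul_le Lm t3
  have e4 : ((S * Z).rank : ℝ) ≤ S.rank := by exact_mod_cast rank_mul_le_left S Z
  have e5 : (32 * A.rank : ℝ) ≤ Fintype.card ι := by exact_mod_cast hA
  have e6 : (0 : ℝ) ≤ Fintype.card ι := Nat.cast_nonneg _
  have e7 : 2 / k * hs (Lm * T) ≤ 4 * (N / k) := by
    rw [div_mul_eq_mul_div, ← mul_div_assoc]
    exact div_le_div_of_nonneg_right (by linarith) hk.le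
  have e8 : hs Am ≤ N / k := by rw [le_div_iff₀ hk]; linarith
  have e9 : 4 * (k * hs As) ≤ N / k := by rw [le_div_iff₀ hk]; linarith
  have e10 := mul_le_mul_of_nonneg_left h6 e6
  push_cast at e2
  have e11 : (Fintype.card ι : ℝ) ≤ 32 * (N / k) := by nlinarith
  rw [← mul_div_assoc, le_div_iff₀ hk] at e11
  linarith

theorem scat [DecidableEq W] [DecidableEq L] [DecidableEq ι] {V : Type}
    {X : Matrix (W ⊕ L) (W ⊕ L) 𝕜} {Y : Matrix (W ⊕ L) L 𝕜} {k : ℕ}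
    {R : W ⊕ L → ℕ → W ⊕ L → Prop} {pos pre : W ⊕ L → V} {pre' : L → V}
    (F : Free X Y k R pos pre pre') (X0 : ∀ s b, X s (.inr b) = 0)
    {r : W ⊕ L → ℝ} (r1 : ∀ s, ∑ t, ‖X s t‖ ^ 2 + ∑ b, ‖Y s b‖ ^ 2 ≤ r s) (r2 : ∀ s, r s ≤ 1)
    (r3 : ∑ a, r (.inr a) ≤ Fintype.card ι)
    {π : W → ℝ} (p0 : ∀ h, 0 ≤ π h) (p1 : ∀ h, 4 * π h ≤ 1)
    (p2 : ∀ t, ∑ h, π h * ‖X (.inl h) (.inl t)‖ ^ 2 + ∑ a, ‖X (.inr a) (.inl t)‖ ^ 2 ≤ π t)
    {D μ : ℝ} (hD : 2 ≤ D) (d1 : Row X D) (d2 : Row Xᴴ D) (d3 : Row Y D) (d4 : Row Yᴴ D)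
    (hμ : 0 ≤ μ) (hf : 64 * D ^ (2 * k) * μ ≤ 1)
    {T : Matrix L ι 𝕜} {Z : Matrix W ι 𝕜} {A : Matrix l ι 𝕜}
    (hL : Fintype.card L = 2 * Fintype.card ι)
    (t0 : ∀ x, nsq (T *ᵥ x) = 2 * nsq x) (t1 : ∀ a, (T * Tᴴ) a a = 0 ∨ (T * Tᴴ) a a = 1)
    (t2 : ∀ a b, a ≠ b → ‖(T * Tᴴ) a b‖ ≤ μ) (t3 : ∀ y, nsq (Tᴴ *ᵥ y) ≤ 2 * nsq y)
    (hA : 32 * A.rank ≤ Fintype.card ι)
    (hx : ∀ x, A *ᵥ x = 0 → Sum.elim (Z *ᵥ x) (T *ᵥ x) =
      X *ᵥ Sum.elim (Z *ᵥ x) (T *ᵥ x) + Y *ᵥ T *ᵥ x) :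
    (k : ℝ) * Fintype.card ι ≤ 32 * Fintype.card W := by
  rcases k.eq_zero_or_pos with rfl | hk
  · simp
  have k0 : (0 : ℝ) < k := by exact_mod_cast hk
  have D0 : 0 ≤ D := by linarith
  have q0 : ∀ s t, 0 ≤ sqm X s t := fun _ _ => sq_nonneg _
  have q1 : ∀ s b, 0 ≤ sqm Y s b := fun _ _ => sq_nonneg _
  set P := ∑ j ∈ range k, X ^ (j + 1) with hP
  set A' := (((k : ℝ)⁻¹ : ℝ) : 𝕜) • P with hA'
  set L' := (((k : ℝ)⁻¹ : ℝ) : 𝕜) • ∑ j ∈ range k, ∑ i ∈ range (j + 1), X ^ i * Y with hL'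
  have a0 : ∀ s t, (k : ℝ) ^ 2 * ‖A' s t‖ ^ 2 ≤ (∑ j ∈ range k, sqm X ^ (j + 1)) s t := fun s t => by
    refine le_of_eq_of_le ?_ (F.sum_le s t)
    rw [hA', Matrix.smul_apply, smul_eq_mul, norm_mul, RCLike.norm_ofReal,
      abs_of_pos (inv_pos.2 k0)]
    field_simp
    rfl
  have a1 : ∀ s b, A' s (.inr b) = 0 := fun s b => by
    simp [hA', hP, Matrix.sum_apply, pow_succ, mul_apply, X0]
  have l0 : ∀ s, ∑ b, ‖L' s b‖ ^ 2 ≤ r s := fun s =>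
    (sum_le_sum fun b _ => sq_avg hk s b fun j hj => F.sum_le' hj s b).trans
      (mass2 q0 q1 r1 r2 k s)
  have l1 : Row L' (2 * D ^ k) := row_avg hk fun j hj =>
    (Row.sum fun i _ => (d1.pow D0 i).mul d3 D0).mono ((geom_le hD _).trans
      (mul_le_mul_of_nonneg_left (pow_le_pow_right₀ (by linarith) hj) zero_le_two))
  have l2 : Row L'ᴴ (2 * D ^ k) := by
    have e : L'ᴴ = (((k : ℝ)⁻¹ : ℝ) : 𝕜) • ∑ j ∈ range k, ∑ i ∈ range (j + 1), Yᴴ * Xᴴ ^ i := by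
      simp [hL', conjTranspose_sum, conjTranspose_pow]
    rw [e]
    refine row_avg hk fun j hj => (Row.sum (c := fun i => D ^ i * D) fun i _ => ?_).mono
      ((geom_le hD _).trans
        (mul_le_mul_of_nonneg_left (pow_le_pow_right₀ (by linarith) hj) zero_le_two))
    rw [mul_comm]
    exact d4.mul (d2.pow D0 i) (pow_nonneg D0 i)
  refine finish (Am := A'.submatrix .inl .inl) (As := A'.submatrix .inr .inl)
    (Lm := L'.submatrix .inl id) (Ls := L'.submatrix .inr id) (T := T) (Z := Z) (A := A)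
    (c := 2 * D ^ k * (2 * D ^ k)) k0 hμ ?_ ?_ ?_ ?_ ?_ ?_ hL t0 t1 t2 t3 hA fun x h => ?_
  · refine le_of_mul_le_mul_left ?_ k0
    rw [← mul_assoc, ← sq, hs, mul_sum, ← card_univ, mul_comm, ← nsmul_eq_mul, ← sum_const]
    refine sum_le_sum fun s _ => ?_
    have h1 : ∑ t, (∑ j ∈ range k, sqm X ^ (j + 1)) (.inl s) t ≤ k := by
      simp only [Matrix.sum_apply]
      rw [sum_comm]
      refine (sum_le_sum fun j _ => mass1 q0 (fun s => ?_) (j + 1) _).trans (by simp)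
      exact le_trans (le_add_of_nonneg_right (sum_nonneg fun b _ => sq_nonneg _))
        ((r1 s).trans (r2 s))
    refine le_trans ?_ ((sum_le_sum fun t _ => a0 (.inl s) t).trans h1)
    rw [mul_sum, Fintype.sum_sum_type]
    exact le_add_of_nonneg_right (sum_nonneg fun b _ => by positivity)
  · rw [hs, sum_comm, mul_sum]
    refine (sum_le_sum (g := fun _ => (1 : ℝ)) fun t _ => le_trans ?_ (p1 t)).trans (by simp)
    have h1 := mass3 q0 (p := Sum.elim 0 1) (q := Sum.elim π 0)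
      (by rintro (t | t); exacts [p0 t, le_rfl]) (by
        rintro (t | t)
        · simpa [Fintype.sum_sum_type, sqm] using p2 t
        · simp [sqm, X0]) k (.inl t)
    simp only [Fintype.sum_sum_type, Sum.elim_inl, Sum.elim_inr, Pi.zero_apply, Pi.one_apply,
      zero_mul, sum_const_zero, zero_add, one_mul] at h1
    rw [mul_assoc, mul_sum]
    exact mul_le_mul_of_nonneg_left ((sum_le_sum fun a _ => a0 _ _).trans h1) (by norm_num)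
  · exact (sum_le_sum (g := fun _ => (1 : ℝ)) fun s _ => (l0 (.inl s)).trans (r2 _)).trans
      (by simp)
  · exact (sum_le_sum fun s _ => l0 (.inr s)).trans r3
  · refine Row.mul (fun b => le_trans ?_ (l2 b)) (fun a => l1 (.inr a)) (by positivity)
    rw [Fintype.sum_sum_type]
    exact le_add_of_nonneg_left (sum_nonneg fun _ _ => norm_nonneg _)
  · refine le_of_eq_of_le ?_ hf
    ring
  · have h1 := unroll_avg (hx x h) hk
    rw [← hP, ← hA', ← hL'] at h1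
    generalize Z *ᵥ x = u, T *ᵥ x = y at h1 ⊢
    constructor <;> funext s
    · simpa [mulVec, dotProduct, Fintype.sum_sum_type, a1] using congrFun h1 (.inl s)
    · simpa [mulVec, dotProduct, Fintype.sum_sum_type, a1] using congrFun h1 (.inr s)

end Pool.Agent.MP_5daf37_lc.TL
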